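import Pool.Agent.helper14.EX1.Defs2
import Pool.Agent.helper82.PD.EvD

/-!
# T2b: definitions

Part T2b of the project T2 (almost all integers, MP_08f931): from the root theorem `visitsH` and the renewal estimate
`ev_black` to `massT2`.  An integer `x` stands for the node `3 x + 2`; `lg k` is the logarithm of the ratio of a letter.
-/

namespace Pool.Agent.helper24.T2

open Finset Pool.Agent.helper14.EX1 Pool.Agent.helper82.PD

/-- All prefixes of length at least `i0` are typical. -/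
def Gd (e : ℝ) (i0 : ℕ) (v : List ℕ) : Prop := ∀ i, i0 ≤ i → i ≤ v.length → Typ e (v.take i)

/-- The logarithm of `2 ^ k / 3`. -/
noncomputable def lg (k : ℕ) : ℝ := k * Real.log 2 - Real.log 3

/-- The logarithm of `2 ^ sum / 3 ^ length`. -/
noncomputable def Sv (v : List ℕ) : ℝ := v.sum * Real.log 2 - v.length * Real.log 3

/-- The minimum of `0, S_1, …, S_n`. -/
noncomputable def Jm : List ℕ → ℝ
  | [] => 0
  | k :: v => min 0 (lg k + Jm v)

/-- The minimum of `S_1, …, S_n`. -/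
noncomputable def Im : List ℕ → ℝ
  | [] => 0
  | k :: v => lg k + Jm v

open Classical in
/-- The root theorem `visitsH` for the class given by the first `h` letters, at the level `l`, with the error `d`. -/
def VisHL (e : ℝ) (i0 h l : ℕ) (d : ℝ) : Prop :=
  ∀ (K r : ℕ) (X : ℝ) (x : ℤ) (H : List ℕ → Prop), 0 < X →
    ∑ u ∈ lw K l, (if Gd e i0 u ∧ Ala x u ∧ H (u.take h) then ww u * ev K X r l u.sum else 0) - d ≤
      ∑ j ∈ range (r + 1), ∑ v ∈ lw K (l + j),
        (if Gd e i0 v ∧ Ala x v ∧ H (v.take h) ∧ St X (l + j) v.sum then ww v else 0)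

/-- The root theorem. -/
def VisH (e : ℝ) (i0 : ℕ) : Prop :=
  ∀ d : ℝ, 0 < d → ∃ n0 : ℕ, ∀ h l : ℕ, n0 ≤ l → 11 * h ≤ 10 * l → VisHL e i0 h l d

/-- The renewal estimate. -/
def EvB : Prop :=
  ∀ d : ℝ, 0 < d → ∃ R0 : ℝ, ∀ R1 : ℝ, ∃ N : ℕ, ∀ (X : ℝ) (l A K r : ℕ),
    R0 * 2 ^ A ≤ X * 3 ^ l → X * 3 ^ l ≤ R1 * 2 ^ A → N ≤ K → N ≤ r →
      (1 - d) * (Real.log 2 / Real.log (4 / 3)) ≤ ev K X r l A

end Pool.Agent.helper24.T2
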