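import Pool.Agent.helper24.T2.Defs

/-!
# T2b-DefsN: first passage words for negative roots

For `x < 0` the node `3 x + 2` is negative; all nodes of the tree of a negative root are negative.
-/

namespace Pool.Agent.helper24.T2

open Finset Pool.Agent.helper14.EX1

/-- First passage words with a negative root. -/
def FPn (Z x : ℤ) (v : List ℕ) : Prop :=
  x < 0 ∧ ¬ (4 : ℤ) ∣ 3 * x + 2 ∧ -Z < 3 * x + 2 ∧ v ≠ [] ∧ (∀ k ∈ v, 1 ≤ k) ∧ Ala x v ∧
    ∀ i, 1 ≤ i → i ≤ v.length → 3 * nd x (v.take i) + 2 ≤ -Z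

end Pool.Agent.helper24.T2
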