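import Pool.Agent.helper24.T2.Defs
import Pool.Agent.helper14.EX1.Wrd

/-!
# T2b-Drift: the minimum of the walk, drift identity

(1) `le_Im`: by induction on the word: `c ≤ Im (k :: v)` iff `c ≤ lg k` and `c ≤ lg k + S_i(v)` for `1 ≤ i ≤ length`; state the
analogous fact for `Jm` first: `c ≤ Jm v` iff `c ≤ 0` and `c ≤ Sv (v.take i)` for all `1 ≤ i ≤ length`.
(2) `drift`.  Weights `p k = (1/2) ^ k / th K` (`th_eq`: sum `1`), `E_n F = ∑ v ∈ lw K n, (∏ p) F v = (∑ v ∈ lw K n, (1/2) ^ v.sum * F v) / th K ^ n`.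
`Im (k :: v) = lg k + Jm v`, `Jm v = min 0 (Im v)` for `v ≠ []`, `max 0 (Im v) = Im v - Jm v`.  So (`sum_lw_succ`)
`E_(n+1) max 0 Im = E lg + E_n Jm - E_(n+1) Jm ≥ E lg`, because `Jm (v ++ [k]) ≤ Jm v` (`sum_lw_snoc`).
`E lg = ∑_{k ≤ K} (1/2)^k / th K * (k log 2 - log 3) → 2 log 2 - log 3 = log (4/3)` for `K → ∞`
(`∑_{k ≤ K} k (1/2)^k = 2 - (K + 2) (1/2)^K`), and `th K ^ n → 1`.
Truncation: `min L (max 0 (Im v)) ≥ max 0 (Im v) - max 0 (lg k - L)` for `v = k :: v'` (`Im v ≤ lg k` as `Jm ≤ 0`), and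
`∑_{k ≤ K} (1/2)^k max 0 (lg k - L) ≤ ∑_{k ≥ L} (1/2)^k k` (`lg k ≤ k`), small for `L` large, uniformly in `K`, `n`.
-/

namespace Pool.Agent.helper24.T2

open Finset Pool.Agent.helper14.EX1

theorem T2b_Drift_Sv_cons (k : ℕ) (v : List ℕ) : Sv (k :: v) = lg k + Sv v := by
  simp only [Sv, lg, List.sum_cons, List.length_cons]
  push_cast
  ring

theorem T2b_Drift_le_Jm (v : List ℕ) : ∀ c : ℝ,
    c ≤ Jm v ↔ c ≤ 0 ∧ ∀ i, 1 ≤ i → i ≤ v.length → c ≤ Sv (v.take i) := by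
  induction v with
  | nil =>
    intro c
    simp only [Jm, List.length_nil]
    exact ⟨fun h => ⟨h, fun i h1 h2 => absurd h2 (by omega)⟩, fun h => h.1⟩
  | cons k v ih =>
    intro c
    have h1 : c ≤ Jm (k :: v) ↔ c ≤ 0 ∧ c - lg k ≤ Jm v := by
      simp only [Jm, le_min_iff]
      exact and_congr_right fun _ => ⟨fun h => by linarith, fun h => by linarith⟩
    rw [h1, ih]
    refine and_congr_right fun _ => ⟨fun h i hi1 hi2 => ?_, fun h => ⟨?_, fun i hi1 hi2 => ?_⟩⟩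
    · obtain ⟨j, rfl⟩ : ∃ j, i = j + 1 := ⟨i - 1, by omega⟩
      rw [List.take_succ_cons, T2b_Drift_Sv_cons]
      rcases Nat.eq_zero_or_pos j with hj | hj
      · subst hj
        have : Sv ([] : List ℕ) = 0 := by simp [Sv]
        rw [List.take_zero, this]
        linarith [h.1]
      · have := h.2 j hj (by simpa using hi2)
        linarith
    · have := h 1 le_rfl (by simp)
      rw [List.take_succ_cons, T2b_Drift_Sv_cons, List.take_zero] at this
      have h0 : Sv ([] : List ℕ) = 0 := by simp [Sv]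
      rw [h0] at this
      linarith
    · have := h (i + 1) (by omega) (by simpa using hi2)
      rw [List.take_succ_cons, T2b_Drift_Sv_cons] at this
      linarith

theorem le_Im {c : ℝ} {v : List ℕ} (hv : v ≠ []) :
    c ≤ Im v ↔ ∀ i, 1 ≤ i → i ≤ v.length → c ≤ Sv (v.take i) := by
  cases v with
  | nil => exact absurd rfl hv
  | cons k v =>
    have h1 : c ≤ Im (k :: v) ↔ c - lg k ≤ Jm v := by
      simp only [Im]
      exact ⟨fun h => by linarith, fun h => by linarith⟩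
    rw [h1, T2b_Drift_le_Jm]
    refine ⟨fun h i hi1 hi2 => ?_, fun h => ⟨?_, fun i hi1 hi2 => ?_⟩⟩
    · obtain ⟨j, rfl⟩ : ∃ j, i = j + 1 := ⟨i - 1, by omega⟩
      rw [List.take_succ_cons, T2b_Drift_Sv_cons]
      rcases Nat.eq_zero_or_pos j with hj | hj
      · subst hj
        have : Sv ([] : List ℕ) = 0 := by simp [Sv]
        rw [List.take_zero, this]
        linarith [h.1]
      · have := h.2 j hj (by simpa using hi2)
        linarith
    · have := h 1 le_rfl (by simp)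
      rw [List.take_succ_cons, T2b_Drift_Sv_cons, List.take_zero] at this
      have h0 : Sv ([] : List ℕ) = 0 := by simp [Sv]
      rw [h0] at this
      linarith
    · have := h (i + 1) (by omega) (by simpa using hi2)
      rw [List.take_succ_cons, T2b_Drift_Sv_cons] at this
      linarith

theorem T2b_Drift_w_cons (k : ℕ) (v : List ℕ) :
    (1 / 2 : ℝ) ^ (k :: v).sum = (1 / 2 : ℝ) ^ k * (1 / 2 : ℝ) ^ v.sum := by
  rw [List.sum_cons, pow_add]

theorem T2b_Drift_w_snoc (k : ℕ) (v : List ℕ) :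
    (1 / 2 : ℝ) ^ (v ++ [k]).sum = (1 / 2 : ℝ) ^ k * (1 / 2 : ℝ) ^ v.sum := by
  rw [List.sum_append, List.sum_singleton, pow_add, mul_comm]

theorem T2b_Drift_J_le_zero (v : List ℕ) : Jm v ≤ 0 := by
  cases v with
  | nil => simp [Jm]
  | cons k v => simp [Jm]

theorem T2b_Drift_J_snoc (k : ℕ) (v : List ℕ) : Jm (v ++ [k]) ≤ Jm v := by
  induction v with
  | nil => simp [Jm]
  | cons a v ih =>
    simp only [List.cons_append, Jm]
    exact min_le_min le_rfl (by linarith)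

theorem T2b_Drift_max (v : List ℕ) : max 0 (Im v) = Im v - Jm v := by
  cases v with
  | nil => simp [Im, Jm]
  | cons k v =>
    simp only [Im, Jm]
    rcases le_total 0 (lg k + Jm v) with h | h
    · rw [max_eq_right h, min_eq_left h]; ring
    · rw [max_eq_left h, min_eq_right h]; ring

theorem T2b_Drift_sum_w (K n : ℕ) : ∑ v ∈ lw K n, (1 / 2 : ℝ) ^ v.sum = th K ^ n := by
  induction n with
  | zero => simp [lw]
  | succ n ih =>
    rw [sum_lw_succ]
    simp only [T2b_Drift_w_cons]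
    rw [show (∑ k ∈ Icc 1 K, ∑ v ∈ lw K n, (1 / 2 : ℝ) ^ k * (1 / 2 : ℝ) ^ v.sum) =
      (∑ k ∈ Icc 1 K, (1 / 2 : ℝ) ^ k) * ∑ v ∈ lw K n, (1 / 2 : ℝ) ^ v.sum by
        rw [sum_mul]; exact sum_congr rfl fun k _ => by rw [mul_sum]]
    rw [th_eq, ih, pow_succ]; ring

theorem T2b_Drift_main (K n : ℕ) :
    th K ^ n * ∑ k ∈ Icc 1 K, (1 / 2 : ℝ) ^ k * lg k ≤
      ∑ v ∈ lw K (n + 1), (1 / 2 : ℝ) ^ v.sum * max 0 (Im v) := by
  have h1 : ∑ v ∈ lw K (n + 1), (1 / 2 : ℝ) ^ v.sum * Im v =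
      th K ^ n * (∑ k ∈ Icc 1 K, (1 / 2 : ℝ) ^ k * lg k) +
        th K * ∑ v ∈ lw K n, (1 / 2 : ℝ) ^ v.sum * Jm v := by
    rw [sum_lw_succ]
    have : ∀ k ∈ Icc 1 K, ∑ v ∈ lw K n, (1 / 2 : ℝ) ^ (k :: v).sum * Im (k :: v) =
        th K ^ n * ((1 / 2 : ℝ) ^ k * lg k) +
          (1 / 2 : ℝ) ^ k * ∑ v ∈ lw K n, (1 / 2 : ℝ) ^ v.sum * Jm v := by
      intro k _
      rw [← T2b_Drift_sum_w K n, sum_mul, mul_sum, ← sum_add_distrib]
      refine sum_congr rfl fun v _ => ?_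
      rw [T2b_Drift_w_cons, Im]; ring
    rw [sum_congr rfl this, sum_add_distrib, ← mul_sum, ← sum_mul, th_eq]
  have h2 : ∑ v ∈ lw K (n + 1), (1 / 2 : ℝ) ^ v.sum * Jm v ≤
      th K * ∑ v ∈ lw K n, (1 / 2 : ℝ) ^ v.sum * Jm v := by
    rw [sum_lw_snoc, ← th_eq, sum_mul, sum_comm]
    refine sum_le_sum fun k _ => ?_
    rw [mul_sum]
    refine sum_le_sum fun v _ => ?_
    rw [T2b_Drift_w_snoc, mul_assoc]
    have : (1 / 2 : ℝ) ^ v.sum * Jm (v ++ [k]) ≤ (1 / 2 : ℝ) ^ v.sum * Jm v :=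
      mul_le_mul_of_nonneg_left (T2b_Drift_J_snoc k v) (by positivity)
    exact mul_le_mul_of_nonneg_left this (by positivity)
  have h3 : ∑ v ∈ lw K (n + 1), (1 / 2 : ℝ) ^ v.sum * max 0 (Im v) =
      ∑ v ∈ lw K (n + 1), (1 / 2 : ℝ) ^ v.sum * Im v -
        ∑ v ∈ lw K (n + 1), (1 / 2 : ℝ) ^ v.sum * Jm v := by
    rw [← sum_sub_distrib]
    refine sum_congr rfl fun v _ => ?_
    rw [T2b_Drift_max]; ring
  rw [h3, h1]; linarith

theorem T2b_Drift_sum1 (K : ℕ) : ∑ k ∈ Icc 1 K, (1 / 2 : ℝ) ^ k * k = 2 - (K + 2) * (1 / 2) ^ K := by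
  induction K with
  | zero => simp
  | succ K ih =>
    rw [sum_Icc_succ_top (by omega), ih, pow_succ]
    push_cast
    ring

theorem T2b_Drift_sum2 (K : ℕ) :
    ∑ k ∈ Icc 1 K, (1 / 2 : ℝ) ^ k * (k : ℝ) ^ 2 = 6 - ((K : ℝ) ^ 2 + 4 * K + 6) * (1 / 2) ^ K := by
  induction K with
  | zero => simp
  | succ K ih =>
    rw [sum_Icc_succ_top (by omega), ih, pow_succ]
    push_cast
    ring

theorem T2b_Drift_lg (K : ℕ) : ∑ k ∈ Icc 1 K, (1 / 2 : ℝ) ^ k * lg k =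
    (2 - (K + 2) * (1 / 2) ^ K) * Real.log 2 - th K * Real.log 3 := by
  rw [← T2b_Drift_sum1, ← th_eq, sum_mul, sum_mul, ← sum_sub_distrib]
  exact sum_congr rfl fun k _ => by rw [lg]; ring

theorem T2b_Drift_cut {L : ℝ} (hL : 1 ≤ L) (K : ℕ) :
    ∑ k ∈ Icc 1 K, (1 / 2 : ℝ) ^ k * max 0 (lg k - L) ≤ 6 / L := by
  have hL0 : 0 < L := by linarith
  have h1 : ∀ k ∈ Icc 1 K, (1 / 2 : ℝ) ^ k * max 0 (lg k - L) ≤ (1 / 2 : ℝ) ^ k * (k : ℝ) ^ 2 * (1 / L) := by
    intro k _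
    rw [mul_assoc]
    refine mul_le_mul_of_nonneg_left ?_ (by positivity)
    refine max_le (by positivity) ?_
    have h2 : lg k ≤ k := by
      have h3 : Real.log 2 ≤ 1 := by
        have := Real.log_two_lt_d9; linarith
      have h4 : 0 ≤ Real.log 3 := Real.log_nonneg (by norm_num)
      have h5 : (k : ℝ) * Real.log 2 ≤ k * 1 := mul_le_mul_of_nonneg_left h3 (by positivity)
      rw [lg]; linarith
    rw [mul_one_div, le_div_iff₀ hL0]
    have hk : (0 : ℝ) ≤ k := by positivity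
    have h6 : (lg k - L) * L ≤ (k - L) * L := mul_le_mul_of_nonneg_right (by linarith) hL0.le
    nlinarith [sq_nonneg ((k : ℝ) - L)]
  refine (sum_le_sum h1).trans ?_
  rw [← sum_mul, T2b_Drift_sum2, mul_one_div]
  refine div_le_div_of_nonneg_right ?_ hL0.le
  have : 0 ≤ ((K : ℝ) ^ 2 + 4 * K + 6) * (1 / 2) ^ K := by positivity
  linarith

/-- `L` does not depend on `n`. -/
theorem drift {d : ℝ} (hd : 0 < d) : ∃ L : ℝ, 1 ≤ L ∧ ∀ n : ℕ, 1 ≤ n → ∃ K0 : ℕ, ∀ K : ℕ, K0 ≤ K →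
    Real.log (4 / 3) - d ≤ ∑ v ∈ lw K n, (1 / 2 : ℝ) ^ v.sum * min L (max 0 (Im v)) := by
  refine ⟨max 1 (12 / d), le_max_left _ _, fun n hn => ?_⟩
  set L : ℝ := max 1 (12 / d) with hLdef
  have hL1 : 1 ≤ L := le_max_left _ _
  have hL0 : 0 < L := by linarith
  have hLd : 6 / L ≤ d / 2 := by
    have h1 : 12 / d ≤ L := le_max_right _ _
    rw [div_le_iff₀ hd] at h1
    rw [div_le_iff₀ hL0]
    linarith
  obtain ⟨m, rfl⟩ : ∃ m, n = m + 1 := ⟨n - 1, by omega⟩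
  have hlog : Real.log (4 / 3) = 2 * Real.log 2 - Real.log 3 := by
    rw [Real.log_div (by norm_num) (by norm_num), show (4 : ℝ) = 2 ^ 2 by norm_num, Real.log_pow]
    norm_num
  have hlim : Filter.Tendsto (fun K : ℕ => th K ^ m *
      ((2 - (K + 2) * (1 / 2) ^ K) * Real.log 2 - th K * Real.log 3)) Filter.atTop
      (nhds (1 ^ m * ((2 - (0 + 2 * 0)) * Real.log 2 - 1 * Real.log 3))) := by
    have ha : Filter.Tendsto (fun K : ℕ => (1 / 2 : ℝ) ^ K) Filter.atTop (nhds 0) :=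
      tendsto_pow_atTop_nhds_zero_of_lt_one (by norm_num) (by norm_num)
    have hb : Filter.Tendsto (fun K : ℕ => (K : ℝ) * (1 / 2 : ℝ) ^ K) Filter.atTop (nhds 0) :=
      tendsto_self_mul_const_pow_of_lt_one (by norm_num) (by norm_num)
    have hth : Filter.Tendsto (fun K : ℕ => th K) Filter.atTop (nhds 1) := by
      have := (tendsto_const_nhds (x := (1 : ℝ))).sub ha
      rw [sub_zero] at this
      exact this
    have hc : Filter.Tendsto (fun K : ℕ => ((K : ℝ) + 2) * (1 / 2 : ℝ) ^ K) Filter.atTop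
        (nhds (0 + 2 * 0)) := by
      refine (hb.add (ha.const_mul 2)).congr fun K => by ring
    exact (hth.pow m).mul (((tendsto_const_nhds.sub hc).mul_const _).sub (hth.mul_const _))
  have hval : (1 : ℝ) ^ m * ((2 - (0 + 2 * 0)) * Real.log 2 - 1 * Real.log 3) = Real.log (4 / 3) := by
    rw [hlog, one_pow]; ring
  rw [hval] at hlim
  obtain ⟨K0, hK0⟩ := Filter.eventually_atTop.1
    (hlim.eventually_const_lt (show Real.log (4 / 3) - d / 2 < Real.log (4 / 3) by linarith))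
  refine ⟨max K0 1, fun K hK => ?_⟩
  have hK1 : 1 ≤ K := (le_max_right _ _).trans hK
  have h1 := hK0 K ((le_max_left _ _).trans hK)
  have h2 := T2b_Drift_main K m
  rw [T2b_Drift_lg] at h2
  have h3 : ∑ v ∈ lw K (m + 1), (1 / 2 : ℝ) ^ v.sum * max 0 (Im v) -
      ∑ k ∈ Icc 1 K, ∑ v ∈ lw K m, (1 / 2 : ℝ) ^ (k :: v).sum * max 0 (lg k - L) ≤
      ∑ v ∈ lw K (m + 1), (1 / 2 : ℝ) ^ v.sum * min L (max 0 (Im v)) := by
    rw [sum_lw_succ, sum_lw_succ, ← sum_sub_distrib]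
    refine sum_le_sum fun k _ => ?_
    rw [← sum_sub_distrib]
    refine sum_le_sum fun v _ => ?_
    rw [← mul_sub]
    refine mul_le_mul_of_nonneg_left ?_ (by positivity)
    have hI : Im (k :: v) ≤ lg k := by
      have := T2b_Drift_J_le_zero v
      simp only [Im]; linarith
    rcases le_total (max 0 (Im (k :: v))) L with h | h
    · rw [min_eq_right h]
      have := le_max_left 0 (lg k - L)
      linarith
    · rw [min_eq_left h]
      rcases le_total 0 (Im (k :: v)) with h4 | h4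
      · rw [max_eq_right h4]
        have := le_max_right 0 (lg k - L)
        linarith
      · rw [max_eq_left h4]
        have := le_max_left 0 (lg k - L)
        linarith
  have h4 : ∑ k ∈ Icc 1 K, ∑ v ∈ lw K m, (1 / 2 : ℝ) ^ (k :: v).sum * max 0 (lg k - L) ≤ d / 2 := by
    have h5 : ∑ k ∈ Icc 1 K, ∑ v ∈ lw K m, (1 / 2 : ℝ) ^ (k :: v).sum * max 0 (lg k - L) =
        th K ^ m * ∑ k ∈ Icc 1 K, (1 / 2 : ℝ) ^ k * max 0 (lg k - L) := by
      rw [mul_sum]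
      refine sum_congr rfl fun k _ => ?_
      rw [← T2b_Drift_sum_w K m, sum_mul]
      refine sum_congr rfl fun v _ => ?_
      rw [T2b_Drift_w_cons]; ring
    rw [h5]
    have h6 := T2b_Drift_cut hL1 K
    have h7 : th K ^ m ≤ 1 := pow_le_one₀ (th_pos hK1).le (th_lt_one K).le
    have h8 : 0 ≤ ∑ k ∈ Icc 1 K, (1 / 2 : ℝ) ^ k * max 0 (lg k - L) :=
      sum_nonneg fun k _ => mul_nonneg (by positivity) (le_max_left _ _)
    calc _ ≤ 1 * ∑ k ∈ Icc 1 K, (1 / 2 : ℝ) ^ k * max 0 (lg k - L) :=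
          mul_le_mul_of_nonneg_right h7 h8
      _ ≤ d / 2 := by rw [one_mul]; exact h6.trans hLd
  linarith

end Pool.Agent.helper24.T2
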