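import Pool.Agent.helper24.T2.Defs
import Pool.Agent.helper14.EX1.Che2

/-!
# T2b-Tail: most words are good

If `v` (length `n`) is not `Gd e i0` then `¬ Typ e (v.take i)` for some `i0 ≤ i ≤ n`.  `∑ v ∈ lw K n, [¬ Typ e (v.take i)] (1/2)^v.sum =
th K ^ (n - i) * ∑ u ∈ lw K i, [¬ Typ e u] (1/2)^u.sum ≤ C * ρ ^ i` (induction with `sum_lw_snoc`, `th_eq`; `Che2_avg`, `che2`: `ρ < 1`, uniform
in `K`, `i`).  Sum over `i ≥ i0`: `≤ C * ρ ^ i0 / (1 - ρ)`.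
-/

namespace Pool.Agent.helper24.T2

open Finset Pool.Agent.helper14.EX1

theorem T2b_Tail_th_le (K : ℕ) : th K ≤ 1 := by
  unfold th
  have : (0 : ℝ) ≤ (1 / 2) ^ K := by positivity
  linarith

theorem T2b_Tail_pre (K i : ℕ) (F : List ℕ → ℝ) (hF : ∀ u, 0 ≤ F u) (n : ℕ) (hi : i ≤ n) :
    ∑ v ∈ lw K n, F (v.take i) * (1 / 2 : ℝ) ^ v.sum ≤ ∑ u ∈ lw K i, F u * (1 / 2 : ℝ) ^ u.sum := by
  induction n, hi using Nat.le_induction with
  | base =>
    refine le_of_eq (Finset.sum_congr rfl fun v hv => ?_)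
    have h1 := (mem_lw.1 hv).1
    rw [List.take_of_length_le h1.le]
  | succ n hin ih =>
    refine le_trans ?_ ih
    rw [sum_lw_snoc]
    refine Finset.sum_le_sum fun v hv => ?_
    have h1 := (mem_lw.1 hv).1
    have h2 : ∀ k ∈ Icc 1 K, F ((v ++ [k]).take i) * (1 / 2 : ℝ) ^ (v ++ [k]).sum =
        F (v.take i) * (1 / 2 : ℝ) ^ v.sum * (1 / 2 : ℝ) ^ k := by
      intro k _
      rw [List.take_append_of_le_length (by omega), List.sum_append, List.sum_singleton, pow_add]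
      ring
    rw [Finset.sum_congr rfl h2, ← Finset.mul_sum, th_eq]
    have h3 : 0 ≤ F (v.take i) * (1 / 2 : ℝ) ^ v.sum := mul_nonneg (hF _) (by positivity)
    calc F (v.take i) * (1 / 2 : ℝ) ^ v.sum * th K
        ≤ F (v.take i) * (1 / 2 : ℝ) ^ v.sum * 1 :=
          mul_le_mul_of_nonneg_left (T2b_Tail_th_le K) h3
      _ = _ := mul_one _

open Classical in
theorem tail {e d : ℝ} (he : 0 < e) (hd : 0 < d) : ∃ i0 : ℕ, ∀ K n : ℕ,
    ∑ v ∈ lw K n, (if ¬ Gd e i0 v then (1 / 2 : ℝ) ^ v.sum else 0) ≤ d := by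
  obtain ⟨ρ, C, hρ, hρ1, hC, hb⟩ := che2 he
  have h1ρ : 0 < 1 - ρ := by linarith
  obtain ⟨i0, hi0⟩ := exists_pow_lt_of_lt_one (show 0 < d * (1 - ρ) / (C + 1) by positivity) hρ1
  refine ⟨i0, fun K n => ?_⟩
  set F : List ℕ → ℝ := fun u => if ¬ Typ e u then 1 else 0 with hF
  have hF0 : ∀ u, 0 ≤ F u := fun u => by
    simp only [hF]
    split_ifs <;> norm_num
  have key : ∀ v ∈ lw K n, (if ¬ Gd e i0 v then (1 / 2 : ℝ) ^ v.sum else 0) ≤
      ∑ i ∈ Ico i0 (n + 1), F (v.take i) * (1 / 2 : ℝ) ^ v.sum := by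
    intro v hv
    have hlen := (mem_lw.1 hv).1
    have hnn : ∀ i ∈ Ico i0 (n + 1), 0 ≤ F (v.take i) * (1 / 2 : ℝ) ^ v.sum := fun i _ =>
      mul_nonneg (hF0 _) (by positivity)
    by_cases hg : Gd e i0 v
    · rw [if_neg (not_not.2 hg)]
      exact Finset.sum_nonneg hnn
    · rw [if_pos hg]
      unfold Gd at hg
      push Not at hg
      obtain ⟨i, hi1, hi2, hi3⟩ := hg
      have hm : i ∈ Ico i0 (n + 1) := by
        rw [Finset.mem_Ico]
        omega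
      refine le_trans ?_ (Finset.single_le_sum hnn hm)
      have h5 : F (v.take i) = 1 := by
        simp only [hF]
        rw [if_pos hi3]
      rw [h5, one_mul]
  have h6 : ∀ i ∈ Ico i0 (n + 1), ∑ v ∈ lw K n, F (v.take i) * (1 / 2 : ℝ) ^ v.sum ≤ C * ρ ^ i := by
    intro i hi
    rw [Finset.mem_Ico] at hi
    refine (T2b_Tail_pre K i F hF0 n (by omega)).trans ?_
    refine le_trans (le_of_eq ?_) (hb K i)
    rw [Che2_avg]
    refine Finset.sum_congr rfl fun u _ => ?_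
    simp only [hF]
    split_ifs <;> simp
  calc ∑ v ∈ lw K n, (if ¬ Gd e i0 v then (1 / 2 : ℝ) ^ v.sum else 0)
      ≤ ∑ v ∈ lw K n, ∑ i ∈ Ico i0 (n + 1), F (v.take i) * (1 / 2 : ℝ) ^ v.sum :=
        Finset.sum_le_sum key
    _ = ∑ i ∈ Ico i0 (n + 1), ∑ v ∈ lw K n, F (v.take i) * (1 / 2 : ℝ) ^ v.sum :=
        Finset.sum_comm
    _ ≤ ∑ i ∈ Ico i0 (n + 1), C * ρ ^ i := Finset.sum_le_sum h6
    _ = C * ∑ i ∈ Ico i0 (n + 1), ρ ^ i := by rw [Finset.mul_sum]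
    _ ≤ C * (ρ ^ i0 / (1 - ρ)) :=
        mul_le_mul_of_nonneg_left (geom_sum_Ico_le_of_lt_one hρ.le hρ1) hC
    _ ≤ (C + 1) * (ρ ^ i0 / (1 - ρ)) := by
        have : 0 ≤ ρ ^ i0 / (1 - ρ) := by positivity
        nlinarith
    _ ≤ d := by
        rw [mul_div_assoc', div_le_iff₀ h1ρ]
        rw [lt_div_iff₀ (by linarith)] at hi0
        linarith

end Pool.Agent.helper24.T2
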