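import Pool.Agent.helper24.T2.Drift
import Pool.Agent.helper24.T2.Tail

/-!
# T2b-Drift2: the drift estimate for the good words

`L` from `drift` (`d/3`), then `i0` from `tail` (`d / (3 L)`).  For `u ∈ lw K l`, `h ≤ l`: `∑ u ∈ lw K l, (1/2)^u.sum * F (u.take h) =
th K ^ (l - h) * ∑ w ∈ lw K h, (1/2)^w.sum * F w` (induction on `l - h`, `sum_lw_snoc`, `th_eq`), `0 ≤ F ≤ L` for `F w = min L (max 0 (Im w))`, and
`th K ^ (l - h) → 1` for `K → ∞`.  The words which are not good cost at most `L * (d / (3 L))`.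
-/

namespace Pool.Agent.helper24.T2

open Finset Pool.Agent.helper14.EX1

/-- Functions of the first `h` letters. -/
theorem T2b_Drift2_take (K h : ℕ) (F : List ℕ → ℝ) (j : ℕ) :
    ∑ u ∈ lw K (h + j), (1 / 2 : ℝ) ^ u.sum * F (u.take h) =
      th K ^ j * ∑ w ∈ lw K h, (1 / 2 : ℝ) ^ w.sum * F w := by
  induction j with
  | zero =>
    rw [add_zero, pow_zero, one_mul]
    refine sum_congr rfl fun u hu => ?_
    rw [List.take_of_length_le (mem_lw.1 hu).1.le]
  | succ j ih =>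
    rw [← add_assoc, sum_lw_snoc, pow_succ, mul_comm (th K ^ j), mul_assoc, ← ih, mul_sum]
    refine sum_congr rfl fun v hv => ?_
    have h1 : h ≤ v.length := by
      rw [(mem_lw.1 hv).1]
      omega
    rw [← th_eq, sum_mul]
    refine sum_congr rfl fun k _ => ?_
    rw [List.take_append_of_le_length h1, List.sum_append, List.sum_singleton, pow_add]
    ring

open Classical in
theorem drift2 {e d : ℝ} (he : 0 < e) (hd : 0 < d) : ∃ (L : ℝ) (i0 : ℕ), 1 ≤ L ∧ 1 ≤ i0 ∧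
    ∀ h l : ℕ, 1 ≤ h → h ≤ l → ∃ K0 : ℕ, ∀ K : ℕ, K0 ≤ K →
      Real.log (4 / 3) - d ≤
        ∑ u ∈ lw K l, (if Gd e i0 u then (1 / 2 : ℝ) ^ u.sum * min L (max 0 (Im (u.take h))) else 0) := by
  obtain ⟨L, hL1, hdr⟩ := drift (d := d / 3) (by positivity)
  have hL0 : 0 < L := by linarith
  obtain ⟨i0, ht⟩ := tail he (d := d / (3 * L)) (by positivity)
  refine ⟨L, max i0 1, hL1, le_max_right _ _, fun h l hh hl => ?_⟩
  obtain ⟨K1, hK1⟩ := hdr h hh
  obtain ⟨j, rfl⟩ : ∃ j, l = h + j := ⟨l - h, by omega⟩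
  obtain ⟨K2, hK2⟩ : ∃ K2 : ℕ, ∀ K, K2 ≤ K → (1 - th K ^ j) * L ≤ d / 3 := by
    have h1 : Filter.Tendsto (fun K : ℕ => (1 - th K ^ j) * L) Filter.atTop (nhds ((1 - (1 - 0) ^ j) * L)) := by
      refine ((tendsto_const_nhds.sub ((tendsto_const_nhds.sub ?_).pow j)).mul_const L)
      exact tendsto_pow_atTop_nhds_zero_of_lt_one (by norm_num) (by norm_num)
    rw [sub_zero, one_pow, sub_self, zero_mul] at h1
    obtain ⟨K2, hK2⟩ := Filter.eventually_atTop.1
      (h1.eventually_lt_const (show (0 : ℝ) < d / 3 by positivity))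
    exact ⟨K2, fun K hK => (hK2 K hK).le⟩
  refine ⟨max K1 (max K2 1), fun K hK => ?_⟩
  have a1 := hK1 K ((le_max_left _ _).trans hK)
  have a2 := hK2 K (((le_max_left _ _).trans (le_max_right _ _)).trans hK)
  have hK1' : 1 ≤ K := ((le_max_right _ _).trans (le_max_right _ _)).trans hK
  have t0 := (th_pos hK1').le
  have t1 := (th_lt_one K).le
  -- the function of the initial part
  obtain ⟨F, hF⟩ : ∃ F : List ℕ → ℝ, F = fun v => min L (max 0 (Im v)) := ⟨_, rfl⟩
  have hF0 : ∀ v, 0 ≤ F v := fun v => by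
    rw [hF]
    exact le_min hL0.le (le_max_left _ _)
  have hFL : ∀ v, F v ≤ L := fun v => by
    rw [hF]
    exact min_le_left _ _
  have e1 : ∀ u : List ℕ, min L (max 0 (Im (u.take h))) = F (u.take h) := fun u => by rw [hF]
  have e2 : ∀ v : List ℕ, min L (max 0 (Im v)) = F v := fun v => by rw [hF]
  simp only [e2] at a1 ⊢
  have e3 := T2b_Drift2_take K h F j
  -- the sum is at most `L`
  have b1 : ∑ w ∈ lw K h, (1 / 2 : ℝ) ^ w.sum * F w ≤ L := by
    have c1 : ∑ w ∈ lw K h, (1 / 2 : ℝ) ^ w.sum * F w ≤ ∑ w ∈ lw K h, (1 / 2 : ℝ) ^ w.sum * L :=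
      sum_le_sum fun w _ => mul_le_mul_of_nonneg_left (hFL w) (by positivity)
    have c2 := T2b_Drift2_take K 0 (fun _ => 1) h
    simp only [lw, zero_add, mul_one, List.sum_nil, pow_zero, sum_singleton] at c2
    rw [← sum_mul, c2] at c1
    have c3 : th K ^ h ≤ 1 := pow_le_one₀ t0 t1
    have c4 : th K ^ h * L ≤ 1 * L := mul_le_mul_of_nonneg_right c3 hL0.le
    linarith
  have b2 : ∑ w ∈ lw K h, (1 / 2 : ℝ) ^ w.sum * F w - d / 3 ≤
      ∑ u ∈ lw K (h + j), (1 / 2 : ℝ) ^ u.sum * F (u.take h) := by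
    rw [e3]
    have c1 : 0 ≤ 1 - th K ^ j := by
      have := pow_le_one₀ t0 t1 (n := j)
      linarith
    have c2 : (1 - th K ^ j) * ∑ w ∈ lw K h, (1 / 2 : ℝ) ^ w.sum * F w ≤ (1 - th K ^ j) * L :=
      mul_le_mul_of_nonneg_left b1 c1
    linarith
  -- the words which are not good
  have b3 : ∑ u ∈ lw K (h + j), (1 / 2 : ℝ) ^ u.sum * F (u.take h) ≤
      ∑ u ∈ lw K (h + j), (if Gd e (max i0 1) u then (1 / 2 : ℝ) ^ u.sum * F (u.take h) else 0) +
      L * ∑ u ∈ lw K (h + j), (if ¬ Gd e i0 u then (1 / 2 : ℝ) ^ u.sum else 0) := by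
    rw [mul_sum, ← sum_add_distrib]
    refine sum_le_sum fun u _ => ?_
    by_cases hg : Gd e (max i0 1) u
    · rw [if_pos hg]
      have : 0 ≤ L * (if ¬ Gd e i0 u then (1 / 2 : ℝ) ^ u.sum else 0) := by
        split_ifs <;> positivity
      linarith
    · have hg' : ¬ Gd e i0 u := fun h' => hg fun i hi hi' => h' i ((le_max_left _ _).trans hi) hi'
      rw [if_neg hg, if_pos hg', zero_add, mul_comm L]
      exact mul_le_mul_of_nonneg_left (hFL _) (by positivity)
  have b4 := mul_le_mul_of_nonneg_left (ht K (h + j)) hL0.le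
  have b5 : L * (d / (3 * L)) = d / 3 := by
    field_simp
  rw [b5] at b4
  linarith

end Pool.Agent.helper24.T2
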