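import Pool.Agent.helper24.T2.Defs
import Pool.Agent.helper24.T2.Drift
import Pool.Agent.helper14.EX1.Nod

/-!
# T2b-Geo: the nodes of the good words

`a = 3 x + 2`, `a_i = 3 nd x (v.take i) + 2`, `c = 1, 2` for a letter odd, even (`Tk_node`): `3 a' = 2 ^ k a - c`.  So
`a_i * 3 ^ i / 2 ^ A_i = a - s_i`, `s_i = ∑_{j ≤ i} c_j 3 ^ (j-1) / 2 ^ A_j` with `0 ≤ s_i`, increasing in `i`.
(1) `off`: for `Gd e i0 v`, `e ≤ 1/100`: `A_j ≥ j` always and `A_j ≥ 1.99 j` for `j ≥ i0` (`Typ`), so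
`s ≤ ∑_{j < i0} 2 * 3 ^ (j-1) / 2 ^ j + ∑_{j ≥ i0} 2 * 3 ^ (j-1) / 2 ^ (1.99 j) ≤ S` (`3 / 2 ^ 1.99 ≤ 10/13`, i.e. `3.9 ≤ 2 ^ 1.99`, `3.9 ^ 100 ≤ 2 ^ 199`);
`S = 4 ^ i0 * 10` is large enough.
(2) `grow`: `2 ^ (1.99 n) ≥ 3.9 ^ n = (1.3 * 3) ^ n`.
(3) `fp_nodes`: `S` from (1).  `i ≤ h`: `le_Im` and `hH` give `(3x+2) * 2 ^ A_i / 3 ^ i ≥ (1 + d) Z`, and `a_i ≥ (3x+2-S) 2^A_i/3^i ≥ (3x+2)/(1+d) 2^A_i/3^i`
since `3x+2 ≥ Z exp (-L) ≥ S (1 + 1/d)`.  `i ≥ h`: `2^A_i / 3^i ≥ 1.3 ^ i ≥ 1.3 ^ h ≥ (1 + d) exp L` (`v.take i` is good).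
(4) `window`: `a = 3 nd + 2 ≤ (3x+2) 2^A/3^n < (3x+2) 2 X'`, and `a ≥ (3x+2-S) 2^A/3^n ≥ (3x+2)/(1+d) X'`, with `X' = X (1+d)/(3x+2)`.
-/

namespace Pool.Agent.helper24.T2

open Finset Pool.Agent.helper14.EX1 Pool.Agent.helper82.PD

/-- the bound of the offset -/
noncomputable def T2b_Geo_B (v : List ℕ) : ℝ :=
  ∑ j ∈ range v.length, 2 * 3 ^ j / 2 ^ (v.take (j + 1)).sum

theorem T2b_Geo_B_cons (k : ℕ) (v : List ℕ) :
    T2b_Geo_B (k :: v) = 2 / 2 ^ k + 3 / 2 ^ k * T2b_Geo_B v := by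
  unfold T2b_Geo_B
  rw [List.length_cons, Finset.sum_range_succ', add_comm, Finset.mul_sum]
  congr 1
  · simp
  · refine Finset.sum_congr rfl fun j _ => ?_
    rw [List.take_succ_cons, List.sum_cons, pow_add 2 k, pow_succ]
    field_simp

theorem T2b_Geo_rep {x : ℤ} {v : List ℕ} (hv : ∀ k ∈ v, 1 ≤ k) (h : Ala x v) :
    ∃ s : ℝ, 0 ≤ s ∧ s ≤ T2b_Geo_B v ∧
      3 * (nd x v : ℝ) + 2 = (3 * (x : ℝ) + 2 - s) * (2 ^ v.sum / 3 ^ v.length) := by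
  induction v generalizing x with
  | nil => exact ⟨0, le_rfl, by simp [T2b_Geo_B], by simp [nd]⟩
  | cons k v ih =>
    obtain ⟨h1, h2⟩ := h
    have hk : 1 ≤ k := hv k (by simp)
    obtain ⟨s, hs0, hs1, hs⟩ := ih (fun j hj => hv j (by simp [hj])) h2
    obtain ⟨c, hc1, hc2, hc⟩ : ∃ c : ℝ, 0 ≤ c ∧ c ≤ 2 ∧
        3 * (3 * (Tk k x : ℝ) + 2) = 2 ^ k * (3 * (x : ℝ) + 2) - c := by
      have h3 := Tk_node hk h1
      by_cases hp : k % 2 = 1
      · rw [if_pos hp] at h3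
        exact ⟨1, by norm_num, by norm_num, by exact_mod_cast h3⟩
      · rw [if_neg hp] at h3
        exact ⟨2, by norm_num, by norm_num, by exact_mod_cast h3⟩
    have hp : (0 : ℝ) < 2 ^ k := by positivity
    refine ⟨c / 2 ^ k + 3 / 2 ^ k * s, by positivity, ?_, ?_⟩
    · rw [T2b_Geo_B_cons]
      have e1 : c / 2 ^ k ≤ 2 / 2 ^ k := div_le_div_of_nonneg_right hc2 hp.le
      have e2 : 3 / 2 ^ k * s ≤ 3 / 2 ^ k * T2b_Geo_B v :=
        mul_le_mul_of_nonneg_left hs1 (by positivity)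
      linarith
    · have e0 : nd x (k :: v) = nd (Tk k x) v := rfl
      rw [e0, hs, List.sum_cons, List.length_cons, pow_add, pow_succ]
      have e3 : 3 * (Tk k x : ℝ) + 2 = (2 ^ k * (3 * (x : ℝ) + 2) - c) / 3 := by linarith
      rw [e3]
      field_simp
      ring

theorem T2b_Geo_pow {n A : ℕ} (h : 199 * n ≤ 100 * A) : (39 / 10 : ℝ) ^ n ≤ 2 ^ A := by
  have h1 : ((39 / 10 : ℝ) ^ n) ^ 100 ≤ ((2 : ℝ) ^ A) ^ 100 := by
    calc ((39 / 10 : ℝ) ^ n) ^ 100 = ((39 / 10 : ℝ) ^ 100) ^ n := by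
          rw [← pow_mul, ← pow_mul, mul_comm]
      _ ≤ ((2 : ℝ) ^ 199) ^ n := pow_le_pow_left₀ (by positivity) (by norm_num) n
      _ = 2 ^ (199 * n) := by rw [← pow_mul]
      _ ≤ 2 ^ (A * 100) := pow_le_pow_right₀ (by norm_num) (by omega)
      _ = ((2 : ℝ) ^ A) ^ 100 := by rw [pow_mul]
  exact (pow_le_pow_iff_left₀ (by positivity) (by positivity) (by norm_num)).mp h1

theorem T2b_Geo_typ {e : ℝ} (he1 : e ≤ 1 / 100) {v : List ℕ} (h : Typ e v) :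
    (39 / 10 : ℝ) ^ v.length ≤ 2 ^ v.sum := by
  refine T2b_Geo_pow ?_
  have h1 := (abs_le.mp h.1).1
  have h2 : e * (v.length : ℝ) ≤ 1 / 100 * v.length :=
    mul_le_mul_of_nonneg_right he1 (Nat.cast_nonneg _)
  have h3 : (199 : ℝ) * v.length ≤ 100 * v.sum := by linarith
  exact_mod_cast h3

theorem T2b_Geo_geom (n : ℕ) : ∑ j ∈ range n, (10 / 13 : ℝ) ^ j = 13 / 3 * (1 - (10 / 13) ^ n) := by
  induction n with
  | zero => simp
  | succ n ih =>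
    rw [Finset.sum_range_succ, ih, pow_succ]
    ring

theorem T2b_Geo_bd {e : ℝ} (he1 : e ≤ 1 / 100) {i0 : ℕ} {v : List ℕ} (hv : ∀ k ∈ v, 1 ≤ k)
    (hG : Gd e i0 v) : T2b_Geo_B v ≤ ∑ j ∈ range i0, (3 / 2 : ℝ) ^ j + 20 / 9 := by
  have h1 : ∀ j ∈ range v.length, (2 * 3 ^ j / 2 ^ (v.take (j + 1)).sum : ℝ) ≤
      (if j < i0 then (3 / 2 : ℝ) ^ j else 0) + 20 / 39 * (10 / 13) ^ j := by
    intro j hj
    have hj' : j + 1 ≤ v.length := Finset.mem_range.mp hj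
    have hlen : (v.take (j + 1)).length = j + 1 := by
      rw [List.length_take, min_eq_left hj']
    have hq : (0 : ℝ) ≤ 20 / 39 * (10 / 13) ^ j := by positivity
    by_cases hji : j < i0
    · rw [if_pos hji]
      have h2 : j + 1 ≤ (v.take (j + 1)).sum := by
        have := List.length_le_sum_of_one_le (v.take (j + 1))
          (fun k hk => hv k (List.mem_of_mem_take hk))
        rwa [hlen] at this
      have h3 : (2 : ℝ) ^ (j + 1) ≤ 2 ^ (v.take (j + 1)).sum :=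
        pow_le_pow_right₀ (by norm_num) h2
      have h4 : (2 * 3 ^ j / 2 ^ (v.take (j + 1)).sum : ℝ) ≤ 2 * 3 ^ j / 2 ^ (j + 1) :=
        div_le_div_of_nonneg_left (by positivity) (by positivity) h3
      have h5 : (2 * 3 ^ j / 2 ^ (j + 1) : ℝ) = (3 / 2) ^ j := by
        rw [div_pow, pow_succ]
        field_simp
      linarith
    · rw [if_neg hji]
      have h2 := T2b_Geo_typ he1 (hG (j + 1) (by omega) hj')
      rw [hlen] at h2
      have h4 : (2 * 3 ^ j / 2 ^ (v.take (j + 1)).sum : ℝ) ≤ 2 * 3 ^ j / (39 / 10) ^ (j + 1) :=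
        div_le_div_of_nonneg_left (by positivity) (by positivity) h2
      have h5 : (2 * 3 ^ j / (39 / 10) ^ (j + 1) : ℝ) = 20 / 39 * (10 / 13) ^ j := by
        have e1 : (39 / 10 : ℝ) ^ j = 3 ^ j * (13 / 10) ^ j := by
          rw [← mul_pow]
          norm_num
        have e2 : (10 / 13 : ℝ) ^ j * (13 / 10) ^ j = 1 := by
          rw [← mul_pow]
          norm_num
        have e3 : (0 : ℝ) < (13 / 10) ^ j := by positivity
        have e4 : (0 : ℝ) < 3 ^ j := by positivity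
        rw [pow_succ, e1, div_eq_iff (by positivity)]
        linear_combination (-2 * 3 ^ j : ℝ) * e2
      linarith
  have h2 : T2b_Geo_B v ≤ ∑ j ∈ range v.length, ((if j < i0 then (3 / 2 : ℝ) ^ j else 0) +
      20 / 39 * (10 / 13) ^ j) := Finset.sum_le_sum h1
  rw [Finset.sum_add_distrib, ← Finset.mul_sum, T2b_Geo_geom] at h2
  have h3 : ∑ j ∈ range v.length, (if j < i0 then (3 / 2 : ℝ) ^ j else 0) ≤
      ∑ j ∈ range i0, (3 / 2 : ℝ) ^ j := by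
    rw [← Finset.sum_filter]
    refine Finset.sum_le_sum_of_subset_of_nonneg ?_ (fun j _ _ => by positivity)
    intro j hj
    exact Finset.mem_range.mpr (Finset.mem_filter.mp hj).2
  have h4 : (0 : ℝ) ≤ (10 / 13) ^ v.length := by positivity
  linarith

theorem T2b_Geo_gd {e : ℝ} {i0 : ℕ} {v : List ℕ} (hG : Gd e i0 v) (i : ℕ) : Gd e i0 (v.take i) := by
  intro j hj1 hj2
  have h1 : j ≤ i := hj2.trans (by rw [List.length_take]; exact min_le_left _ _)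
  have h2 : j ≤ v.length := hj2.trans (by rw [List.length_take]; exact min_le_right _ _)
  rw [List.take_take, min_eq_left h1]
  exact hG j hj1 h2

theorem T2b_Geo_ala {x : ℤ} {v : List ℕ} (h : Ala x v) (i : ℕ) : Ala x (v.take i) := by
  have h1 := (ala_append x (v.take i) (v.drop i)).mp (by rwa [List.take_append_drop])
  exact h1.1

theorem T2b_Geo_half {S L d : ℝ} (hd : 0 < d) {Z : ℤ}
    (hZ : S * (1 + 1 / d) * Real.exp L ≤ Z) {x : ℤ} (hx : (Z : ℝ) * Real.exp (-L) ≤ 3 * x + 2)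
    (hZ0 : 0 < Z) : 0 < 3 * (x : ℝ) + 2 ∧ (3 * (x : ℝ) + 2) / (1 + d) ≤ 3 * x + 2 - S := by
  have hZ0' : (0 : ℝ) < Z := by exact_mod_cast hZ0
  have hpos : 0 < 3 * (x : ℝ) + 2 := lt_of_lt_of_le (mul_pos hZ0' (Real.exp_pos _)) hx
  have h1 : S * (1 + 1 / d) ≤ Z * Real.exp (-L) := by
    rw [Real.exp_neg, ← div_eq_mul_inv, le_div_iff₀ (Real.exp_pos _)]
    exact hZ
  have h2 : S * (1 + 1 / d) ≤ 3 * x + 2 := h1.trans hx
  refine ⟨hpos, ?_⟩
  rw [div_le_iff₀ (by linarith)]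
  have h3 : S * (1 + d) ≤ (3 * x + 2) * d := by
    have := mul_le_mul_of_nonneg_right h2 hd.le
    have e : S * (1 + 1 / d) * d = S * (1 + d) := by
      field_simp
      ring
    rwa [e] at this
  linarith

theorem T2b_Geo_Sv (v : List ℕ) : Real.exp (Sv v) = 2 ^ v.sum / 3 ^ v.length := by
  unfold Sv
  rw [Real.exp_sub, mul_comm (v.sum : ℝ), mul_comm (v.length : ℝ), Real.exp_mul, Real.exp_mul,
    Real.exp_log (by norm_num), Real.exp_log (by norm_num), Real.rpow_natCast, Real.rpow_natCast]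

theorem off {e : ℝ} (he : 0 < e) (he1 : e ≤ 1 / 100) (i0 : ℕ) : ∃ S : ℝ, 0 ≤ S ∧
    ∀ (x : ℤ) (v : List ℕ), (∀ k ∈ v, 1 ≤ k) → Ala x v → Gd e i0 v →
      (3 * (x : ℝ) + 2 - S) * (2 ^ v.sum / 3 ^ v.length) ≤ 3 * (nd x v : ℝ) + 2 ∧
      3 * (nd x v : ℝ) + 2 ≤ (3 * (x : ℝ) + 2) * (2 ^ v.sum / 3 ^ v.length) := by
  refine ⟨∑ j ∈ range i0, (3 / 2 : ℝ) ^ j + 20 / 9, by positivity, fun x v hv hA hG => ?_⟩
  obtain ⟨s, hs0, hs1, hs⟩ := T2b_Geo_rep hv hA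
  have hb := T2b_Geo_bd he1 hv hG
  have hR : (0 : ℝ) < 2 ^ v.sum / 3 ^ v.length := by positivity
  rw [hs]
  exact ⟨mul_le_mul_of_nonneg_right (by linarith) hR.le,
    mul_le_mul_of_nonneg_right (by linarith) hR.le⟩

theorem grow {e : ℝ} (he : 0 < e) (he1 : e ≤ 1 / 100) {i0 : ℕ} {v : List ℕ} (h0 : i0 ≤ v.length)
    (hG : Gd e i0 v) : (13 / 10 : ℝ) ^ v.length ≤ 2 ^ v.sum / 3 ^ v.length := by
  have h1 := T2b_Geo_typ he1 (hG v.length h0 le_rfl |> fun h => by rwa [List.take_length] at h)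
  rw [le_div_iff₀ (by positivity), ← mul_pow]
  refine le_trans (le_of_eq ?_) h1
  norm_num

/-- `S` is any constant as in `off`. -/
theorem fp_nodes {e : ℝ} (he : 0 < e) (he1 : e ≤ 1 / 100) {i0 h : ℕ} {S L d : ℝ} (hS0 : 0 ≤ S)
    (hS : ∀ (x : ℤ) (v : List ℕ), (∀ k ∈ v, 1 ≤ k) → Ala x v → Gd e i0 v →
      (3 * (x : ℝ) + 2 - S) * (2 ^ v.sum / 3 ^ v.length) ≤ 3 * (nd x v : ℝ) + 2 ∧
      3 * (nd x v : ℝ) + 2 ≤ (3 * (x : ℝ) + 2) * (2 ^ v.sum / 3 ^ v.length))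
    (hd : 0 < d) (h1 : 1 ≤ h) (h0 : i0 ≤ h) (hh : Real.exp L * (1 + d) ≤ (13 / 10) ^ h)
    {Z : ℤ} (hZ0 : 0 < Z) (hZ : S * (1 + 1 / d) * Real.exp L ≤ Z) {x : ℤ} (hx : (Z : ℝ) * Real.exp (-L) ≤ 3 * x + 2)
    {v : List ℕ} (hv : ∀ k ∈ v, 1 ≤ k) (hA : Ala x v) (hG : Gd e i0 v) (hl : h ≤ v.length)
    (hH : (Z : ℝ) * Real.exp (-(Im (v.take h) - d)) ≤ 3 * x + 2) :
    ∀ i, 1 ≤ i → i ≤ v.length → (Z : ℤ) ≤ 3 * nd x (v.take i) + 2 := by
  intro i hi1 hi2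
  obtain ⟨hpos, hhalf⟩ := T2b_Geo_half hd hZ hx hZ0
  have hlen : (v.take i).length = i := by rw [List.length_take, min_eq_left hi2]
  have hv' : ∀ k ∈ v.take i, 1 ≤ k := fun k hk => hv k (List.mem_of_mem_take hk)
  have hG' := T2b_Geo_gd hG i
  have h2 := (hS x (v.take i) hv' (T2b_Geo_ala hA i) hG').1
  have hR : (0 : ℝ) < 2 ^ (v.take i).sum / 3 ^ (v.take i).length := by positivity
  have h3 : (3 * (x : ℝ) + 2) / (1 + d) * (2 ^ (v.take i).sum / 3 ^ (v.take i).length) ≤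
      3 * (nd x (v.take i) : ℝ) + 2 := (mul_le_mul_of_nonneg_right hhalf hR.le).trans h2
  have hZ0' : (0 : ℝ) < Z := by exact_mod_cast hZ0
  have key : (Z : ℝ) * (1 + d) ≤ (3 * (x : ℝ) + 2) * (2 ^ (v.take i).sum / 3 ^ (v.take i).length) := by
    rcases le_total i h with hih | hih
    · have hne : v.take h ≠ [] := by
        intro h0
        have := congrArg List.length h0
        rw [List.length_take, min_eq_left hl, List.length_nil] at this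
        omega
      have h4 := (le_Im hne).mp le_rfl i hi1 (by rw [List.length_take, min_eq_left hl]; exact hih)
      rw [List.take_take, min_eq_left hih] at h4
      rw [← T2b_Geo_Sv]
      have h5 : (Z : ℝ) * Real.exp d ≤ (3 * x + 2) * Real.exp (Im (v.take h)) := by
        have h6 := mul_le_mul_of_nonneg_right hH (Real.exp_pos (Im (v.take h))).le
        rw [mul_assoc, ← Real.exp_add] at h6
        have e : -(Im (v.take h) - d) + Im (v.take h) = d := by ring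
        rwa [e] at h6
      have h7 : (3 * (x : ℝ) + 2) * Real.exp (Im (v.take h)) ≤
          (3 * x + 2) * Real.exp (Sv (v.take i)) :=
        mul_le_mul_of_nonneg_left (Real.exp_le_exp.mpr h4) hpos.le
      have h8 : (Z : ℝ) * (1 + d) ≤ Z * Real.exp d :=
        mul_le_mul_of_nonneg_left (by linarith [Real.add_one_le_exp d]) hZ0'.le
      linarith
    · have h4 := grow he he1 (by rw [hlen]; omega) hG'
      have h5 : (13 / 10 : ℝ) ^ h ≤ (13 / 10) ^ (v.take i).length := by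
        rw [hlen]
        exact pow_le_pow_right₀ (by norm_num) hih
      have h6 : Real.exp L * (1 + d) ≤ 2 ^ (v.take i).sum / 3 ^ (v.take i).length :=
        hh.trans (h5.trans h4)
      have h7 : (Z : ℝ) * Real.exp (-L) * (Real.exp L * (1 + d)) ≤
          (3 * x + 2) * (2 ^ (v.take i).sum / 3 ^ (v.take i).length) :=
        mul_le_mul hx h6 (by positivity) hpos.le
      have h8 : (Z : ℝ) * Real.exp (-L) * (Real.exp L * (1 + d)) = Z * (1 + d) := by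
        have : Real.exp (-L) * Real.exp L = 1 := by
          rw [← Real.exp_add]
          simp
        linear_combination (Z : ℝ) * (1 + d) * this
      rwa [h8] at h7
  have h9 : (Z : ℝ) ≤ (3 * (x : ℝ) + 2) / (1 + d) *
      (2 ^ (v.take i).sum / 3 ^ (v.take i).length) := by
    rw [div_mul_eq_mul_div, le_div_iff₀ (by linarith)]
    exact key
  have h10 : (Z : ℝ) ≤ 3 * (nd x (v.take i) : ℝ) + 2 := h9.trans h3
  exact_mod_cast h10

theorem window {e : ℝ} {i0 : ℕ} {S L d : ℝ} (hS0 : 0 ≤ S)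
    (hS : ∀ (x : ℤ) (v : List ℕ), (∀ k ∈ v, 1 ≤ k) → Ala x v → Gd e i0 v →
      (3 * (x : ℝ) + 2 - S) * (2 ^ v.sum / 3 ^ v.length) ≤ 3 * (nd x v : ℝ) + 2 ∧
      3 * (nd x v : ℝ) + 2 ≤ (3 * (x : ℝ) + 2) * (2 ^ v.sum / 3 ^ v.length))
    (hd : 0 < d) {Z : ℤ} (hZ0 : 0 < Z) (hZ : S * (1 + 1 / d) * Real.exp L ≤ Z) {x : ℤ}
    (hx : (Z : ℝ) * Real.exp (-L) ≤ 3 * x + 2) {X : ℝ} (hX : 0 < X)
    {v : List ℕ} (hv : ∀ k ∈ v, 1 ≤ k) (hA : Ala x v) (hG : Gd e i0 v)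
    (hSt : St (X * (1 + d) / (3 * x + 2)) v.length v.sum) :
    X ≤ 3 * (nd x v : ℝ) + 2 ∧ 3 * (nd x v : ℝ) + 2 < 2 * X * (1 + d) ∧
      ww v / (3 * x + 2) ≤ 1 / (3 * (nd x v : ℝ) + 2) := by
  obtain ⟨hpos, hhalf⟩ := T2b_Geo_half hd hZ hx hZ0
  obtain ⟨h2, h2'⟩ := hS x v hv hA hG
  have h3l : (0 : ℝ) < 3 ^ v.length := by positivity
  have hR : (0 : ℝ) < 2 ^ v.sum / 3 ^ v.length := by positivity
  have h3 : (3 * (x : ℝ) + 2) / (1 + d) * (2 ^ v.sum / 3 ^ v.length) ≤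
      3 * (nd x v : ℝ) + 2 := (mul_le_mul_of_nonneg_right hhalf hR.le).trans h2
  obtain ⟨s1, s2⟩ := hSt
  have a1 : X * (1 + d) / (3 * x + 2) ≤ 2 ^ v.sum / 3 ^ v.length := by
    rw [le_div_iff₀ h3l]
    exact s1
  have a2 : (2 : ℝ) ^ v.sum / 3 ^ v.length < 2 * (X * (1 + d) / (3 * x + 2)) := by
    rw [div_lt_iff₀ h3l]
    exact s2
  have b1 : X * (1 + d) ≤ (3 * x + 2) * (2 ^ v.sum / 3 ^ v.length) := by
    rw [div_le_iff₀ hpos] at a1
    linarith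
  have b2 : (3 * (x : ℝ) + 2) * (2 ^ v.sum / 3 ^ v.length) < 2 * X * (1 + d) := by
    have := mul_lt_mul_of_pos_left a2 hpos
    have e : (3 * (x : ℝ) + 2) * (2 * (X * (1 + d) / (3 * x + 2))) = 2 * X * (1 + d) := by
      field_simp
    rwa [e] at this
  have c1 : X ≤ 3 * (nd x v : ℝ) + 2 := by
    refine le_trans ?_ h3
    rw [div_mul_eq_mul_div, le_div_iff₀ (by linarith)]
    exact b1
  have c2 : 0 < 3 * (nd x v : ℝ) + 2 := hX.trans_le c1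
  refine ⟨c1, h2'.trans_lt b2, ?_⟩
  have e : ww v / (3 * (x : ℝ) + 2) = 1 / ((3 * x + 2) * (2 ^ v.sum / 3 ^ v.length)) := by
    unfold ww
    field_simp
  rw [e]
  exact div_le_div_of_nonneg_left zero_le_one c2 h2'

end Pool.Agent.helper24.T2
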