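import Pool.Agent.helper24.T2.Geo

/-!
# T2b-GeoN: the nodes of the good words, negative roots

`b = -(3 x + 2) > 0`; the absolute values of the nodes are `(b + s_i) 2 ^ A_i / 3 ^ i` with `0 ≤ s_i ≤ S`.
-/

namespace Pool.Agent.helper24.T2

open Finset Pool.Agent.helper14.EX1 Pool.Agent.helper82.PD

theorem fp_nodesN {e : ℝ} (he : 0 < e) (he1 : e ≤ 1 / 100) {i0 h : ℕ} {S L d : ℝ}
    (hS : ∀ (x : ℤ) (v : List ℕ), (∀ k ∈ v, 1 ≤ k) → Ala x v → Gd e i0 v →
      (3 * (x : ℝ) + 2 - S) * (2 ^ v.sum / 3 ^ v.length) ≤ 3 * (nd x v : ℝ) + 2 ∧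
      3 * (nd x v : ℝ) + 2 ≤ (3 * (x : ℝ) + 2) * (2 ^ v.sum / 3 ^ v.length))
    (hd : 0 < d) (h0 : i0 ≤ h) (hh : Real.exp L * (1 + d) ≤ (13 / 10) ^ h)
    {Z : ℤ} (hZ0 : 0 < Z) {x : ℤ} {b : ℝ} (hb : b = -(3 * (x : ℝ) + 2))
    (hx : (Z : ℝ) * Real.exp (-L) ≤ b)
    {v : List ℕ} (hv : ∀ k ∈ v, 1 ≤ k) (hA : Ala x v) (hG : Gd e i0 v) (hl : h ≤ v.length)
    (hH : (Z : ℝ) * Real.exp (-(Im (v.take h) - d)) ≤ b) :
    ∀ i, 1 ≤ i → i ≤ v.length → 3 * nd x (v.take i) + 2 ≤ -Z := by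
  intro i hi1 hi2
  have hZ0' : (0 : ℝ) < Z := by exact_mod_cast hZ0
  have hpos : 0 < b := lt_of_lt_of_le (mul_pos hZ0' (Real.exp_pos _)) hx
  have hlen : (v.take i).length = i := by rw [List.length_take, min_eq_left hi2]
  have hv' : ∀ k ∈ v.take i, 1 ≤ k := fun k hk => hv k (List.mem_of_mem_take hk)
  have hG' := T2b_Geo_gd hG i
  have h2 := (hS x (v.take i) hv' (T2b_Geo_ala hA i) hG').2
  have key : (Z : ℝ) * (1 + d) ≤ b * (2 ^ (v.take i).sum / 3 ^ (v.take i).length) := by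
    rcases le_total i h with hih | hih
    · have hne : v.take h ≠ [] := by
        intro h0
        have := congrArg List.length h0
        rw [List.length_take, min_eq_left hl, List.length_nil] at this
        omega
      have h4 := (le_Im hne).mp le_rfl i hi1 (by rw [List.length_take, min_eq_left hl]; exact hih)
      rw [List.take_take, min_eq_left hih] at h4
      rw [← T2b_Geo_Sv]
      have h5 : (Z : ℝ) * Real.exp d ≤ b * Real.exp (Im (v.take h)) := by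
        have h6 := mul_le_mul_of_nonneg_right hH (Real.exp_pos (Im (v.take h))).le
        rw [mul_assoc, ← Real.exp_add] at h6
        have e : -(Im (v.take h) - d) + Im (v.take h) = d := by ring
        rwa [e] at h6
      have h7 : b * Real.exp (Im (v.take h)) ≤ b * Real.exp (Sv (v.take i)) :=
        mul_le_mul_of_nonneg_left (Real.exp_le_exp.mpr h4) hpos.le
      have h8 : (Z : ℝ) * (1 + d) ≤ Z * Real.exp d :=
        mul_le_mul_of_nonneg_left (by linarith [Real.add_one_le_exp d]) hZ0'.le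
      linarith
    · have h4 := grow he he1 (by rw [hlen]; omega) hG'
      have h5 : (13 / 10 : ℝ) ^ h ≤ (13 / 10) ^ (v.take i).length := by
        rw [hlen]
        exact pow_le_pow_right₀ (by norm_num) hih
      have h6 : Real.exp L * (1 + d) ≤ 2 ^ (v.take i).sum / 3 ^ (v.take i).length :=
        hh.trans (h5.trans h4)
      have h7 : (Z : ℝ) * Real.exp (-L) * (Real.exp L * (1 + d)) ≤
          b * (2 ^ (v.take i).sum / 3 ^ (v.take i).length) :=
        mul_le_mul hx h6 (by positivity) hpos.le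
      have h8 : (Z : ℝ) * Real.exp (-L) * (Real.exp L * (1 + d)) = Z * (1 + d) := by
        have : Real.exp (-L) * Real.exp L = 1 := by
          rw [← Real.exp_add]
          simp
        linear_combination (Z : ℝ) * (1 + d) * this
      rwa [h8] at h7
  have h9 : (Z : ℝ) ≤ (Z : ℝ) * (1 + d) := by
    have := mul_pos hZ0' hd
    linarith
  have h10 : 3 * (nd x (v.take i) : ℝ) + 2 ≤ -(Z : ℝ) := by
    have e : (3 * (x : ℝ) + 2) = -b := by rw [hb]; ring
    rw [e] at h2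
    linarith
  exact_mod_cast h10

theorem windowN {e : ℝ} {i0 : ℕ} {S L d : ℝ} (hS0 : 0 ≤ S)
    (hS : ∀ (x : ℤ) (v : List ℕ), (∀ k ∈ v, 1 ≤ k) → Ala x v → Gd e i0 v →
      (3 * (x : ℝ) + 2 - S) * (2 ^ v.sum / 3 ^ v.length) ≤ 3 * (nd x v : ℝ) + 2 ∧
      3 * (nd x v : ℝ) + 2 ≤ (3 * (x : ℝ) + 2) * (2 ^ v.sum / 3 ^ v.length))
    (hd : 0 < d) {Z : ℤ} (hZ0 : 0 < Z) (hZ : S * (1 + 1 / d) * Real.exp L ≤ Z) {x : ℤ} {b : ℝ}
    (hb : b = -(3 * (x : ℝ) + 2)) (hx : (Z : ℝ) * Real.exp (-L) ≤ b) {X : ℝ} (hX : 0 < X)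
    {v : List ℕ} (hv : ∀ k ∈ v, 1 ≤ k) (hA : Ala x v) (hG : Gd e i0 v)
    (hSt : St (X / b) v.length v.sum) :
    X ≤ -(3 * (nd x v : ℝ) + 2) ∧ -(3 * (nd x v : ℝ) + 2) < 2 * X * (1 + d) ∧
      ww v / b / (1 + d) ≤ 1 / (-(3 * (nd x v : ℝ) + 2)) := by
  have hZ0' : (0 : ℝ) < Z := by exact_mod_cast hZ0
  have hpos : 0 < b := lt_of_lt_of_le (mul_pos hZ0' (Real.exp_pos _)) hx
  obtain ⟨h2, h2'⟩ := hS x v hv hA hG
  have e0 : (3 * (x : ℝ) + 2) = -b := by rw [hb]; ring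
  rw [e0] at h2 h2'
  have h3l : (0 : ℝ) < 3 ^ v.length := by positivity
  have hR : (0 : ℝ) < 2 ^ v.sum / 3 ^ v.length := by positivity
  have hbS : b + S ≤ b * (1 + d) := by
    have h1 : S * (1 + 1 / d) ≤ Z * Real.exp (-L) := by
      rw [Real.exp_neg, ← div_eq_mul_inv, le_div_iff₀ (Real.exp_pos _)]
      exact hZ
    have h3 : S * (1 + 1 / d) ≤ b := h1.trans hx
    have h4 := mul_le_mul_of_nonneg_right h3 hd.le
    have h5 : S * (1 + 1 / d) * d = S * d + S := by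
      field_simp
    have h6 : 0 ≤ S * d := by positivity
    nlinarith
  obtain ⟨s1, s2⟩ := hSt
  have a1 : X / b ≤ 2 ^ v.sum / 3 ^ v.length := by
    rw [le_div_iff₀ h3l]
    exact s1
  have a2 : (2 : ℝ) ^ v.sum / 3 ^ v.length < 2 * (X / b) := by
    rw [div_lt_iff₀ h3l]
    exact s2
  have b1 : X ≤ b * (2 ^ v.sum / 3 ^ v.length) := by
    rw [div_le_iff₀ hpos] at a1
    linarith
  have b2 : b * (2 ^ v.sum / 3 ^ v.length) < 2 * X := by
    have := mul_lt_mul_of_pos_left a2 hpos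
    have e : b * (2 * (X / b)) = 2 * X := by
      field_simp
    rwa [e] at this
  have c1 : X ≤ -(3 * (nd x v : ℝ) + 2) := by linarith
  have c3 : -(3 * (nd x v : ℝ) + 2) ≤ b * (2 ^ v.sum / 3 ^ v.length) * (1 + d) := by
    have h7 := mul_le_mul_of_nonneg_right hbS hR.le
    have e1 : (-b - S) * (2 ^ v.sum / 3 ^ v.length) = -((b + S) * (2 ^ v.sum / 3 ^ v.length)) := by ring
    rw [e1] at h2
    have e2 : b * (1 + d) * (2 ^ v.sum / 3 ^ v.length) = b * (2 ^ v.sum / 3 ^ v.length) * (1 + d) := by ring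
    rw [e2] at h7
    linarith
  have c2 : 0 < -(3 * (nd x v : ℝ) + 2) := hX.trans_le c1
  refine ⟨c1, ?_, ?_⟩
  · refine c3.trans_lt ?_
    exact mul_lt_mul_of_pos_right b2 (by linarith)
  · have e : ww v / b / (1 + d) = 1 / (b * (2 ^ v.sum / 3 ^ v.length) * (1 + d)) := by
      unfold ww
      field_simp
    rw [e]
    exact div_le_div_of_nonneg_left zero_le_one c2 c3

end Pool.Agent.helper24.T2
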