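import Pool.Agent.helper24.T2.Defs
import Pool.Agent.helper14.EX1.Wrd

/-!
# T2b-Prog: the roots of a word, sum of the reciprocals

Let `N = 3 ^ l`.  The word `u` of length `l` is allowed exactly for the `x` in one class modulo `N` (`ala_count`, `ala_shift`), say
`x = x0 + N t` with `0 ≤ x0 < N`, `t ≥ 0`.  The node is `z_t = 3 x0 + 2 + 3 N t`; among four consecutive `t` exactly one has
`4 ∣ z_t` (`3 N` is odd).  With `a = Z exp (-y)`, blocks of four consecutive `t` inside `a ≤ z_t < Z`: the sum of `1 / z_t`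
over the three good ones is `≥ 3 / z_max ≥ (1 / (4 N)) * (log (z_(4b+4+t0)) - log (z_(4b+t0))) - ...`.  Simplest form: for a block starting at `z`
(`z, z + 3N, z + 6N, z + 9N`), the three good terms are each `≥ 1 / (z + 12 N)`, and `log ((z + 12 N) / z) ≤ 12 N / z`, so
`3 / (z + 12 N) ≥ (1 / (4 N)) * log ((z + 12 N) / z) * (z / (z + 12 N))`, and `z / (z + 12 N) ≥ 1 - 12 N / a ≥ 1 - η`.  Telescoping over the
blocks: sum `≥ (1 - η) / (4 N) * (log ((Z - 12 N) / (a + 3 N)))`, which is `≥ (y - d) / (4 N)` for `Z ≥ Z0(l, L, d)`, uniformly in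
`0 ≤ y ≤ L`; for `y ≤ d` there is nothing to prove.
-/

namespace Pool.Agent.helper24.T2

open Finset Pool.Agent.helper14.EX1

theorem T2b_Prog_range {F : ℕ → ℝ} (hF : ∀ x, 0 ≤ F x) {N : ℕ} (hN : 1 ≤ N) (x0 t : ℕ) :
    ∑ s ∈ range t, F (x0 + N * s) ≤ ∑ x ∈ range (x0 + N * t), F x := by
  induction t with
  | zero => simpa using sum_nonneg fun x _ => hF x
  | succ t ih =>
    rw [sum_range_succ, Nat.mul_succ, ← add_assoc, sum_range_add]
    have h := single_le_sum (f := fun x => F (x0 + N * t + x)) (fun x _ => hF _) (mem_range.2 hN)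
    simp only [add_zero] at h
    linarith

theorem T2b_Prog_block {c : ℝ} {w N : ℕ} (hN : Odd N) {g : ℕ → ℝ} (hg0 : ∀ j, 0 ≤ g j)
    (hg : ∀ j : ℕ, j < 4 → ¬ 4 ∣ w + 3 * N * j → c ≤ g j) :
    3 * c ≤ g 0 + g 1 + g 2 + g 3 := by
  obtain ⟨k, rfl⟩ := hN
  have e : ∀ j, j < 4 → (if 4 ∣ w + 3 * (2 * k + 1) * j then 0 else c) ≤ g j := by
    intro j hj
    split_ifs with h
    · exact hg0 j
    · exact hg j hj h
  have e0 := e 0 (by norm_num)
  have e1 := e 1 (by norm_num)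
  have e2 := e 2 (by norm_num)
  have e3 := e 3 (by norm_num)
  have hw : w % 4 = 0 ∨ w % 4 = 1 ∨ w % 4 = 2 ∨ w % 4 = 3 := by omega
  have hk : k % 2 = 0 ∨ k % 2 = 1 := by omega
  rcases hw with hw | hw | hw | hw <;> rcases hk with hk | hk <;> split_ifs at e0 e1 e2 e3 <;>
    first | (exfalso; omega) | linarith

theorem T2b_Prog_root {u : List ℕ} (hk : ∀ k ∈ u, 1 ≤ k) :
    ∃ x0 : ℕ, x0 < 3 ^ u.length ∧ Ala (x0 : ℤ) u := by
  by_contra h
  push Not at h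
  have h1 := ala_count u hk
  rw [sum_eq_zero fun x hx => if_neg (h x (mem_range.1 hx))] at h1
  norm_num at h1

/-- The telescoping over the blocks. -/
theorem T2b_Prog_tel {F : ℕ → ℝ} (hF : ∀ x, 0 ≤ F x) {N : ℕ} (hN : Odd N) {x0 b0 : ℕ}
    (hg : ∀ t : ℕ, 4 * b0 ≤ t → ¬ 4 ∣ 3 * (x0 + N * t) + 2 →
      1 / (3 * (x0 + N * t : ℝ) + 2) ≤ F (x0 + N * t)) (b : ℕ) (hb : b0 ≤ b) :
    1 / (4 * (N : ℝ)) * (Real.log (3 * x0 + 2 + 12 * N * (b + 1)) -
      Real.log (3 * x0 + 2 + 12 * N * (b0 + 1))) ≤ ∑ t ∈ range (4 * b), F (x0 + N * t) := by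
  have hN1 : 1 ≤ N := hN.pos
  have hNr : (1 : ℝ) ≤ N := by exact_mod_cast hN1
  induction b, hb using Nat.le_induction with
  | base =>
    rw [sub_self, mul_zero]
    exact sum_nonneg fun t _ => hF _
  | succ b hb ih =>
    rw [show 4 * (b + 1) = 4 * b + 4 by ring, sum_range_add]
    have hw : (0 : ℝ) < 3 * x0 + 2 + 12 * N * (b + 1) := by positivity
    have hb1 : 3 * (1 / (3 * x0 + 2 + 12 * N * (b + 1) : ℝ)) ≤ ∑ j ∈ range 4, F (x0 + N * (4 * b + j)) := by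
      rw [sum_range_succ, sum_range_succ, sum_range_succ, sum_range_succ, sum_range_zero, zero_add]
      refine T2b_Prog_block (w := 3 * (x0 + N * (4 * b)) + 2) hN (g := fun j => F (x0 + N * (4 * b + j)))
        (fun j => hF _) ?_
      intro j hj h4
      refine le_trans ?_ (hg (4 * b + j) (by omega) ?_)
      · refine one_div_le_one_div_of_le (by positivity) ?_
        have hj' : (j : ℝ) ≤ 4 := by exact_mod_cast hj.le
        push_cast
        nlinarith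
      · intro h
        apply h4
        convert h using 1
        ring
    have hlog : Real.log (3 * x0 + 2 + 12 * N * ((b : ℝ) + 1 + 1)) - Real.log (3 * x0 + 2 + 12 * N * ((b : ℝ) + 1)) ≤
        12 * N * (1 / (3 * x0 + 2 + 12 * N * (b + 1) : ℝ)) := by
      rw [← Real.log_div (by positivity) hw.ne']
      refine (Real.log_le_sub_one_of_pos (by positivity)).trans (le_of_eq ?_)
      field_simp
      ring
    have h4N : (0 : ℝ) < 1 / (4 * (N : ℝ)) := by positivity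
    have h2 := mul_le_mul_of_nonneg_left hlog h4N.le
    have h3 : 1 / (4 * (N : ℝ)) * (12 * N * (1 / (3 * x0 + 2 + 12 * N * (b + 1) : ℝ))) =
        3 * (1 / (3 * x0 + 2 + 12 * N * (b + 1) : ℝ)) := by
      field_simp
      norm_num
    push_cast
    rw [h3] at h2
    linarith

open Classical in
theorem prog (l : ℕ) {L d : ℝ} (hL : 1 ≤ L) (hd : 0 < d) : ∃ Z0 : ℕ, ∀ Z : ℕ, Z0 ≤ Z →
    ∀ u : List ℕ, u.length = l → (∀ k ∈ u, 1 ≤ k) → ∀ y : ℝ, y ≤ L →
      (y - d) / (4 * 3 ^ l) ≤ ∑ x ∈ range Z,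
        (if Ala (x : ℤ) u ∧ ¬ (4 : ℤ) ∣ 3 * (x : ℤ) + 2 ∧ (Z : ℝ) * Real.exp (-y) ≤ 3 * x + 2 ∧ (3 * x + 2 : ℝ) < Z
          then 1 / (3 * x + 2 : ℝ) else 0) := by
  have hN1 : 1 ≤ 3 ^ l := Nat.one_le_pow _ _ (by norm_num)
  have hodd : Odd (3 ^ l) := Odd.pow (by decide)
  have hcast : ((3 ^ l : ℕ) : ℝ) = (3 : ℝ) ^ l := by push_cast; rfl
  rw [← hcast]
  generalize hNN : (3 ^ l : ℕ) = N at hN1 hodd
  have hNr : (1 : ℝ) ≤ N := by exact_mod_cast hN1
  refine ⟨⌈24 * (N : ℝ) * Real.exp L * (1 + 1 / d)⌉₊, fun Z hZ u hu hk y hy => ?_⟩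
  have hZ' : 24 * (N : ℝ) * Real.exp L * (1 + 1 / d) ≤ Z := Nat.ceil_le.1 hZ
  have hF0 : ∀ (P : Prop) [Decidable P] (x : ℕ), 0 ≤ (if P then 1 / (3 * x + 2 : ℝ) else 0) := by
    intro P _ x
    split_ifs
    · positivity
    · exact le_rfl
  rcases le_or_gt y d with hyd | hyd
  · refine le_trans ?_ (sum_nonneg fun x _ => hF0 _ x)
    exact div_nonpos_of_nonpos_of_nonneg (by linarith) (by positivity)
  obtain ⟨a, ha⟩ : ∃ a : ℝ, a = (Z : ℝ) * Real.exp (-y) := ⟨_, rfl⟩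
  rw [← ha]
  have haN : 24 * (N : ℝ) * (1 + 1 / d) ≤ a := by
    have h1 : Real.exp (-L) ≤ Real.exp (-y) := Real.exp_le_exp.2 (by linarith)
    have h2 : 24 * (N : ℝ) * (1 + 1 / d) = 24 * (N : ℝ) * Real.exp L * (1 + 1 / d) * Real.exp (-L) := by
      have h := Real.exp_add L (-L)
      rw [add_neg_cancel, Real.exp_zero] at h
      linear_combination (24 * (N : ℝ) * (1 + 1 / d)) * h
    rw [h2, ha]
    exact mul_le_mul hZ' h1 (Real.exp_pos _).le (Nat.cast_nonneg _)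
  have hd1 : 0 < 1 / d := by positivity
  have ha1 : 24 * (N : ℝ) ≤ a := by nlinarith
  have ha2 : 24 * (N : ℝ) ≤ a * d := by
    have h := mul_le_mul_of_nonneg_right haN hd.le
    have h2 : 24 * (N : ℝ) * (1 + 1 / d) * d = 24 * N * d + 24 * N := by
      field_simp
    have h3 : 0 ≤ 24 * (N : ℝ) * d := by positivity
    linarith
  have ha0 : 0 < a := by linarith
  have hZa : (Z : ℝ) = a * Real.exp y := by
    rw [ha, mul_assoc, ← Real.exp_add, neg_add_cancel, Real.exp_zero, mul_one]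
  have hZ1 : a + 24 * N ≤ Z := by
    have h1 := Real.add_one_le_exp y
    have h2 := mul_le_mul_of_nonneg_left h1 ha0.le
    have h3 := mul_le_mul_of_nonneg_left hyd.le ha0.le
    rw [hZa]
    linarith
  have hZ0 : (0 : ℝ) < Z := by linarith
  obtain ⟨x0, hx0, hA0⟩ := T2b_Prog_root hk
  rw [hu, hNN] at hx0
  have hx0' : (x0 : ℝ) + 1 ≤ N := by exact_mod_cast hx0
  have hA : ∀ t : ℕ, Ala ((x0 + N * t : ℕ) : ℤ) u := by
    intro t
    have h := (ala_shift u (x0 : ℤ) (t : ℤ)).2 hA0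
    rw [hu] at h
    convert h using 1
    rw [← hNN]
    push_cast
    ring
  obtain ⟨b0, hb0, hb0'⟩ : ∃ b : ℕ, a ≤ 3 * x0 + 2 + 12 * N * b ∧ (3 * x0 + 2 + 12 * N * b : ℝ) ≤ a + 12 * N := by
    refine ⟨⌈(a - (3 * x0 + 2)) / (12 * N)⌉₊, ?_, ?_⟩
    · have h := Nat.le_ceil ((a - (3 * x0 + 2)) / (12 * N))
      rw [div_le_iff₀ (by positivity)] at h
      linarith
    · have h0 : 0 ≤ (a - (3 * x0 + 2)) / (12 * N) := div_nonneg (by linarith) (by positivity)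
      have h := (Nat.ceil_lt_add_one h0).le
      rw [← sub_le_iff_le_add, le_div_iff₀ (by positivity)] at h
      linarith
  obtain ⟨b1, hb1, hb1'⟩ : ∃ b : ℕ, (3 * x0 + 2 + 12 * N * b : ℝ) ≤ Z ∧ (Z : ℝ) ≤ 3 * x0 + 2 + 12 * N * (b + 1) := by
    have h0 : 0 ≤ ((Z : ℝ) - (3 * x0 + 2)) / (12 * N) := div_nonneg (by linarith) (by positivity)
    refine ⟨⌊((Z : ℝ) - (3 * x0 + 2)) / (12 * N)⌋₊, ?_, ?_⟩
    · have h := Nat.floor_le h0
      rw [le_div_iff₀ (by positivity)] at h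
      linarith
    · have h := (Nat.lt_floor_add_one (((Z : ℝ) - (3 * x0 + 2)) / (12 * N))).le
      rw [div_le_iff₀ (by positivity)] at h
      linarith
  have hbb : b0 ≤ b1 := by
    by_contra hc
    have hc' : (b1 : ℝ) + 1 ≤ b0 := by
      have : b1 + 1 ≤ b0 := by omega
      exact_mod_cast this
    have h1 : 12 * (N : ℝ) * (b1 + 1) ≤ 12 * N * b0 := mul_le_mul_of_nonneg_left hc' (by positivity)
    linarith
  have htel := T2b_Prog_tel
    (F := fun x : ℕ => if Ala (x : ℤ) u ∧ ¬ (4 : ℤ) ∣ 3 * (x : ℤ) + 2 ∧ a ≤ 3 * x + 2 then 1 / (3 * x + 2 : ℝ) else 0)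
    (fun x => hF0 _ x) hodd (x0 := x0) (b0 := b0) (by
      intro t ht h4
      have hc1 : ¬ (4 : ℤ) ∣ 3 * ((x0 + N * t : ℕ) : ℤ) + 2 := by
        intro h
        apply h4
        exact_mod_cast h
      have hc2 : a ≤ 3 * ((x0 + N * t : ℕ) : ℝ) + 2 := by
        have ht' : 4 * (b0 : ℝ) ≤ t := by exact_mod_cast ht
        have h1 : 3 * (N : ℝ) * (4 * b0) ≤ 3 * N * t := mul_le_mul_of_nonneg_left ht' (by positivity)
        push_cast
        linarith
      rw [if_pos ⟨hA t, hc1, hc2⟩]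
      push_cast
      exact le_rfl) b1 hbb
  have hran := T2b_Prog_range
    (F := fun x : ℕ => if Ala (x : ℤ) u ∧ ¬ (4 : ℤ) ∣ 3 * (x : ℤ) + 2 ∧ a ≤ 3 * x + 2 then 1 / (3 * x + 2 : ℝ) else 0)
    (fun x => hF0 _ x) hN1 x0 (4 * b1)
  have hcmp : ∑ x ∈ range (x0 + N * (4 * b1)),
      (if Ala (x : ℤ) u ∧ ¬ (4 : ℤ) ∣ 3 * (x : ℤ) + 2 ∧ a ≤ 3 * x + 2 then 1 / (3 * x + 2 : ℝ) else 0) ≤
      ∑ x ∈ range Z, (if Ala (x : ℤ) u ∧ ¬ (4 : ℤ) ∣ 3 * (x : ℤ) + 2 ∧ a ≤ 3 * x + 2 ∧ (3 * x + 2 : ℝ) < Z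
          then 1 / (3 * x + 2 : ℝ) else 0) := by
    have hlt : ∀ x ∈ range (x0 + N * (4 * b1)), (3 * x + 2 : ℝ) < Z := by
      intro x hx
      have h1 : (x : ℝ) < x0 + N * (4 * b1) := by exact_mod_cast mem_range.1 hx
      linarith
    refine le_trans (le_of_eq (sum_congr rfl fun x hx => ?_)) (sum_le_sum_of_subset_of_nonneg ?_ fun x _ _ => hF0 _ x)
    · have h1 := hlt x hx
      by_cases h2 : Ala (x : ℤ) u ∧ ¬ (4 : ℤ) ∣ 3 * (x : ℤ) + 2 ∧ a ≤ 3 * x + 2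
      · rw [if_pos h2, if_pos ⟨h2.1, h2.2.1, h2.2.2, h1⟩]
      · rw [if_neg h2, if_neg fun h => h2 ⟨h.1, h.2.1, h.2.2.1⟩]
    · intro x hx
      have h1 := hlt x hx
      rw [mem_range]
      have h2 : (x : ℝ) < Z := by
        have : (0 : ℝ) ≤ x := Nat.cast_nonneg _
        linarith
      exact_mod_cast h2
  refine le_trans ?_ (htel.trans (hran.trans hcmp))
  have hlog1 : Real.log Z ≤ Real.log (3 * x0 + 2 + 12 * N * (b1 + 1)) := Real.log_le_log hZ0 hb1'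
  have hlog2 : Real.log (3 * x0 + 2 + 12 * N * (b0 + 1)) ≤ Real.log a + d := by
    have h1 : (3 * x0 + 2 + 12 * N * (b0 + 1) : ℝ) ≤ a * (1 + d) := by linarith
    refine (Real.log_le_log (by positivity) h1).trans ?_
    rw [Real.log_mul ha0.ne' (by positivity)]
    have h2 := Real.log_le_sub_one_of_pos (show (0 : ℝ) < 1 + d by linarith)
    linarith
  have hlog3 : Real.log Z = Real.log a + y := by
    rw [hZa, Real.log_mul ha0.ne' (Real.exp_pos _).ne', Real.log_exp]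
  rw [div_eq_mul_inv, mul_comm, ← one_div]
  exact mul_le_mul_of_nonneg_left (by linarith) (by positivity)

end Pool.Agent.helper24.T2
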