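import Pool.Agent.helper24.T2.Defs
import Pool.Agent.helper14.EX1.Wrd

/-!
# T2b-Root: one root, strip seen from the root

`R0` from `EvB` for `d`; `X0` so large that `R0 * 8 ^ l ≤ (X0 / B) * 3 ^ l` and `1 ≤ X0` (also for `R0 < 0`).  Given `X ≥ X0`: `R1 = X (1+d) 3 ^ l`, `N` from
`EvB`, `K = max N K1`, `r = N`.  For `u ∈ lw K l` good: `u.sum ≤ 3 l` (`Typ`, `i0 ≤ l`), so for `X' = X (1+d)/(3x+2)`, `2 ≤ 3x+2 ≤ B`:
`R0 * 2 ^ u.sum ≤ X' * 3 ^ l ≤ R1 * 2 ^ u.sum`, hence `ev K X' r l u.sum ≥ (1-d) log 2 / log (4/3)`; insert into `hV`.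
-/

namespace Pool.Agent.helper24.T2

open Finset Pool.Agent.helper14.EX1 Pool.Agent.helper82.PD

open Classical in
theorem root {e d d2 B : ℝ} (he : 0 < e) (he1 : e ≤ 1 / 100) (hd : 0 < d) {i0 h l : ℕ} (hl : i0 ≤ l)
    (hV : VisHL e i0 h l d2) (hB : EvB) : ∃ X0 : ℝ, ∀ X : ℝ, X0 ≤ X → ∀ K1 : ℕ, ∃ K r : ℕ, K1 ≤ K ∧
      ∀ (x : ℤ) (H : List ℕ → Prop), 0 ≤ x → (3 * x + 2 : ℝ) ≤ B →
        (1 - d) * (Real.log 2 / Real.log (4 / 3)) *
            ∑ u ∈ lw K l, (if Gd e i0 u ∧ Ala x u ∧ H (u.take h) then ww u else 0) - d2 ≤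
          ∑ j ∈ range (r + 1), ∑ v ∈ lw K (l + j),
            (if Gd e i0 v ∧ Ala x v ∧ H (v.take h) ∧ St (X * (1 + d) / (3 * x + 2)) (l + j) v.sum
              then ww v else 0) := by
  obtain ⟨R0, hR0⟩ := hB d hd
  refine ⟨max 1 (|R0| * 8 ^ l * |B|), fun X hX K1 => ?_⟩
  obtain ⟨N, hN⟩ := hR0 (X * (1 + d) * 3 ^ l)
  refine ⟨max N K1, N, le_max_right _ _, fun x H hx hxB => ?_⟩
  have hX1 : (1 : ℝ) ≤ X := (le_max_left _ _).trans hX
  have hX2 : |R0| * 8 ^ l * |B| ≤ X := (le_max_right _ _).trans hX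
  have hx' : (0 : ℝ) ≤ (x : ℝ) := by exact_mod_cast hx
  have hq : (1 : ℝ) ≤ 3 * x + 2 := by linarith
  have hq0 : (0 : ℝ) < 3 * x + 2 := by linarith
  have hB0 : 0 < B := by linarith
  obtain ⟨X', hX'⟩ : ∃ X' : ℝ, X' = X * (1 + d) / (3 * x + 2) := ⟨_, rfl⟩
  have hXd : 0 < X * (1 + d) := by positivity
  have hXX : X ≤ X * (1 + d) := by nlinarith
  have hX'0 : 0 < X' := by rw [hX']; positivity
  have hlow : |R0| * 8 ^ l ≤ X' := by
    rw [hX', le_div_iff₀ hq0]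
    have h1 : |R0| * 8 ^ l * (3 * x + 2) ≤ |R0| * 8 ^ l * |B| :=
      mul_le_mul_of_nonneg_left (hxB.trans (le_abs_self B)) (by positivity)
    linarith
  have hup : X' ≤ X * (1 + d) := by
    rw [hX', div_le_iff₀ hq0]
    nlinarith
  have h3l : (1 : ℝ) ≤ 3 ^ l := one_le_pow₀ (by norm_num)
  have hev : ∀ u ∈ lw (max N K1) l, Gd e i0 u →
      (1 - d) * (Real.log 2 / Real.log (4 / 3)) ≤ ev (max N K1) X' N l u.sum := by
    intro u hu hG
    have hlen : u.length = l := (mem_lw.1 hu).1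
    have hT := hG l hl hlen.ge
    rw [List.take_of_length_le hlen.le] at hT
    have hs : (u.sum : ℝ) ≤ 3 * l := by
      have h1 := (abs_le.1 hT.1).2
      rw [hlen] at h1
      have h2 : (0 : ℝ) ≤ l := Nat.cast_nonneg l
      nlinarith
    have hs' : u.sum ≤ 3 * l := by exact_mod_cast hs
    have h2A : (2 : ℝ) ^ u.sum ≤ 8 ^ l := by
      calc (2 : ℝ) ^ u.sum ≤ 2 ^ (3 * l) := pow_le_pow_right₀ (by norm_num) hs'
        _ = 8 ^ l := by rw [pow_mul]; norm_num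
    have h1A : (1 : ℝ) ≤ 2 ^ u.sum := one_le_pow₀ (by norm_num)
    apply hN X' l u.sum (max N K1) N _ _ (le_max_left _ _) le_rfl
    · calc R0 * 2 ^ u.sum ≤ |R0| * 2 ^ u.sum :=
            mul_le_mul_of_nonneg_right (le_abs_self R0) (by positivity)
        _ ≤ |R0| * 8 ^ l := mul_le_mul_of_nonneg_left h2A (abs_nonneg _)
        _ ≤ X' := hlow
        _ ≤ X' * 3 ^ l := le_mul_of_one_le_right hX'0.le h3l
    · calc X' * 3 ^ l ≤ X * (1 + d) * 3 ^ l := mul_le_mul_of_nonneg_right hup (by positivity)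
        _ ≤ X * (1 + d) * 3 ^ l * 2 ^ u.sum := le_mul_of_one_le_right (by positivity) h1A
  have hVV := hV (max N K1) N X' x H hX'0
  have hsum : (1 - d) * (Real.log 2 / Real.log (4 / 3)) *
      ∑ u ∈ lw (max N K1) l, (if Gd e i0 u ∧ Ala x u ∧ H (u.take h) then ww u else 0) ≤
      ∑ u ∈ lw (max N K1) l,
        (if Gd e i0 u ∧ Ala x u ∧ H (u.take h) then ww u * ev (max N K1) X' N l u.sum else 0) := by
    rw [mul_sum]
    refine sum_le_sum fun u hu => ?_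
    by_cases hc : Gd e i0 u ∧ Ala x u ∧ H (u.take h)
    · rw [if_pos hc, if_pos hc, mul_comm]
      exact mul_le_mul_of_nonneg_left (hev u hu hc.1) (ww_pos u).le
    · rw [if_neg hc, if_neg hc, mul_zero]
  rw [← hX']
  linarith

end Pool.Agent.helper24.T2
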