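import Pool.Agent.helper24.T2.Mass
import Pool.Agent.helper24.T2.DefsN
import Pool.Agent.helper24.T2.ProgN
import Pool.Agent.helper24.T2.GeoN
import Pool.Agent.helper24.T2.RootN

/-!
# T2b-MassN: the mass of the first passage words, negative roots `-x - 1`, `x ≥ 0`, nodes `-(3 x + 1)`
-/

namespace Pool.Agent.helper24.T2

open Finset Pool.Agent.helper14.EX1 Pool.Agent.helper82.PD

/-- The root `x` is used. -/
def Rn (Z : ℕ) (L : ℝ) (x : ℕ) : Prop :=
  ¬ (4 : ℤ) ∣ 3 * (x : ℤ) + 1 ∧ (Z : ℝ) * Real.exp (-L) ≤ 3 * x + 1 ∧ (3 * x + 1 : ℝ) < Z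

/-- The condition on the first `h` letters. -/
def Hn (Z : ℕ) (d : ℝ) (x : ℕ) (w : List ℕ) : Prop :=
  (Z : ℝ) * Real.exp (-(Im w - d)) ≤ 3 * x + 1

open Classical in
/-- One word: the roots for which the condition on the first `h` letters holds. -/
theorem MassN_word {l h Z : ℕ} {L d : ℝ} (hL : 1 ≤ L) (hd : 0 < d) {u : List ℕ} (hu : u.length = l)
    (hP : ∀ y : ℝ, y ≤ L → (y - d) / (4 * 3 ^ l) ≤ ∑ x ∈ range Z,
        (if Ala (-(x : ℤ) - 1) u ∧ ¬ (4 : ℤ) ∣ 3 * (x : ℤ) + 1 ∧ (Z : ℝ) * Real.exp (-y) ≤ 3 * x + 1 ∧ (3 * x + 1 : ℝ) < Z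
          then 1 / (3 * x + 1 : ℝ) else 0)) :
    (1 / 2 : ℝ) ^ u.sum * (min L (max 0 (Im (u.take h))) - 2 * d) / 4 ≤
      ∑ x ∈ range Z, (if Rn Z L x ∧ Ala (-(x : ℤ) - 1) u ∧ Hn Z d x (u.take h) then ww u / (3 * x + 1 : ℝ) else 0) := by
  have hww := ww_pos u
  have hnn : 0 ≤ ∑ x ∈ range Z, (if Rn Z L x ∧ Ala (-(x : ℤ) - 1) u ∧ Hn Z d x (u.take h) then ww u / (3 * x + 1 : ℝ) else 0) := by
    refine Finset.sum_nonneg fun x _ => ?_
    split_ifs
    · positivity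
    · exact le_rfl
  have hp : (0 : ℝ) < (1 / 2 : ℝ) ^ u.sum := by positivity
  by_cases hI : Im (u.take h) < 0
  · have h1 : min L (max 0 (Im (u.take h))) = 0 := by
      rw [max_eq_left hI.le, min_eq_right (by linarith)]
    rw [h1]
    refine le_trans ?_ hnn
    have : 0 ≤ (1 / 2 : ℝ) ^ u.sum * (2 * d) := by positivity
    linarith
  · push Not at hI
    set I := Im (u.take h) with hIdef
    have hy := hP (min L (I - d)) (min_le_left _ _)
    have h1 : min L (max 0 I) - 2 * d ≤ min L (I - d) - d := by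
      rw [max_eq_right hI]
      have h2 : min L I - d ≤ min L (I - d) := by
        refine le_min ?_ ?_
        · have := min_le_left L I
          linarith
        · have := min_le_right L I
          linarith
      linarith
    have h3 : (1 / 2 : ℝ) ^ u.sum * (min L (max 0 I) - 2 * d) / 4 ≤ ww u * ((min L (I - d) - d) / (4 * 3 ^ l)) := by
      have h4 : ww u * ((min L (I - d) - d) / (4 * 3 ^ l)) = (1 / 2 : ℝ) ^ u.sum * (min L (I - d) - d) / 4 := by
        rw [← Mass_ww u, hu]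
        field_simp
      rw [h4]
      have := mul_le_mul_of_nonneg_left h1 hp.le
      linarith
    refine h3.trans ((mul_le_mul_of_nonneg_left hy hww.le).trans ?_)
    rw [Finset.mul_sum]
    refine Finset.sum_le_sum fun x _ => ?_
    split_ifs with hc hc' hc'
    · exact le_of_eq (by ring)
    · exfalso
      apply hc'
      obtain ⟨a1, a2, a3, a4⟩ := hc
      have hZ : (0 : ℝ) ≤ Z := Nat.cast_nonneg Z
      refine ⟨⟨a2, ?_, a4⟩, a1, ?_⟩
      · refine le_trans (mul_le_mul_of_nonneg_left (Real.exp_le_exp.2 ?_) hZ) a3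
        have := min_le_left L (I - d)
        linarith
      · unfold Hn
        refine le_trans (mul_le_mul_of_nonneg_left (Real.exp_le_exp.2 ?_) hZ) a3
        have := min_le_right L (I - d)
        linarith
    · rw [mul_zero]; positivity
    · rw [mul_zero]

open Classical in
/-- All words. -/
theorem MassN_words {e : ℝ} {i0 K l h Z : ℕ} {L d : ℝ} (hL : 1 ≤ L) (hd : 0 < d)
    (hP : ∀ u : List ℕ, u.length = l → (∀ k ∈ u, 1 ≤ k) → ∀ y : ℝ, y ≤ L →
      (y - d) / (4 * 3 ^ l) ≤ ∑ x ∈ range Z,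
        (if Ala (-(x : ℤ) - 1) u ∧ ¬ (4 : ℤ) ∣ 3 * (x : ℤ) + 1 ∧ (Z : ℝ) * Real.exp (-y) ≤ 3 * x + 1 ∧ (3 * x + 1 : ℝ) < Z
          then 1 / (3 * x + 1 : ℝ) else 0))
    (hD : Real.log (4 / 3) - d ≤
        ∑ u ∈ lw K l, (if Gd e i0 u then (1 / 2 : ℝ) ^ u.sum * min L (max 0 (Im (u.take h))) else 0)) :
    (Real.log (4 / 3) - 3 * d) / 4 ≤ ∑ x ∈ (range Z).filter (Rn Z L), 1 / (3 * x + 1 : ℝ) *
      ∑ u ∈ lw K l, (if Gd e i0 u ∧ Ala (-(x : ℤ) - 1) u ∧ Hn Z d x (u.take h) then ww u else 0) := by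
  have e1 : ∑ x ∈ (range Z).filter (Rn Z L), 1 / (3 * x + 1 : ℝ) *
      ∑ u ∈ lw K l, (if Gd e i0 u ∧ Ala (-(x : ℤ) - 1) u ∧ Hn Z d x (u.take h) then ww u else 0) =
      ∑ u ∈ lw K l, (if Gd e i0 u then
        ∑ x ∈ range Z, (if Rn Z L x ∧ Ala (-(x : ℤ) - 1) u ∧ Hn Z d x (u.take h) then ww u / (3 * x + 1 : ℝ) else 0) else 0) := by
    rw [Finset.sum_filter]
    simp only [Finset.mul_sum]
    have e2 : ∀ x ∈ range Z, (if Rn Z L x then ∑ u ∈ lw K l, 1 / (3 * x + 1 : ℝ) *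
        (if Gd e i0 u ∧ Ala (-(x : ℤ) - 1) u ∧ Hn Z d x (u.take h) then ww u else 0) else 0) =
        ∑ u ∈ lw K l, (if Gd e i0 u ∧ (Rn Z L x ∧ Ala (-(x : ℤ) - 1) u ∧ Hn Z d x (u.take h)) then ww u / (3 * x + 1 : ℝ) else 0) := by
      intro x _
      by_cases hr : Rn Z L x
      · rw [if_pos hr]
        refine Finset.sum_congr rfl fun u _ => ?_
        by_cases hc : Gd e i0 u ∧ Ala (-(x : ℤ) - 1) u ∧ Hn Z d x (u.take h)
        · rw [if_pos hc, if_pos ⟨hc.1, hr, hc.2⟩]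
          ring
        · rw [if_neg hc, if_neg (fun h' => hc ⟨h'.1, h'.2.2⟩), mul_zero]
      · rw [if_neg hr]
        symm
        refine Finset.sum_eq_zero fun u _ => if_neg (fun h' => hr h'.2.1)
    rw [Finset.sum_congr rfl e2, Finset.sum_comm]
    refine Finset.sum_congr rfl fun u _ => ?_
    by_cases hg : Gd e i0 u
    · rw [if_pos hg]
      refine Finset.sum_congr rfl fun x _ => ?_
      simp only [hg, true_and]
    · rw [if_neg hg]
      exact Finset.sum_eq_zero fun x _ => if_neg (fun h' => hg h'.1)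
  rw [e1]
  have h1 : ∀ u ∈ lw K l, (if Gd e i0 u then (1 / 2 : ℝ) ^ u.sum * min L (max 0 (Im (u.take h))) else 0) / 4 -
      (1 / 2 : ℝ) ^ u.sum * (2 * d) / 4 ≤
      (if Gd e i0 u then
        ∑ x ∈ range Z, (if Rn Z L x ∧ Ala (-(x : ℤ) - 1) u ∧ Hn Z d x (u.take h) then ww u / (3 * x + 1 : ℝ) else 0) else 0) := by
    intro u hu
    obtain ⟨hlen, hlet⟩ := mem_lw.1 hu
    by_cases hg : Gd e i0 u
    · rw [if_pos hg, if_pos hg]
      have := MassN_word (h := h) hL hd hlen (hP u hlen (fun k hk => (hlet k hk).1))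
      refine le_trans (le_of_eq ?_) this
      ring
    · rw [if_neg hg, if_neg hg]
      have : 0 ≤ (1 / 2 : ℝ) ^ u.sum * (2 * d) := by positivity
      linarith
  refine le_trans ?_ (Finset.sum_le_sum h1)
  rw [Finset.sum_sub_distrib, ← Finset.sum_div]
  have h2 : ∑ u ∈ lw K l, (1 / 2 : ℝ) ^ u.sum * (2 * d) / 4 = (∑ u ∈ lw K l, (1 / 2 : ℝ) ^ u.sum) * (2 * d) / 4 := by
    rw [Finset.sum_mul, Finset.sum_div]
  rw [h2]
  have h3 := Mass_half_le K l
  have h4 : (∑ u ∈ lw K l, (1 / 2 : ℝ) ^ u.sum) * (2 * d) ≤ 1 * (2 * d) :=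
    mul_le_mul_of_nonneg_right h3 (by positivity)
  linarith

/-- The condition on a pair. -/
def Pn (e : ℝ) (i0 h Z : ℕ) (L d X : ℝ) (p : ℕ × List ℕ) : Prop :=
  Rn Z L p.1 ∧ Gd e i0 p.2 ∧ Ala (-(p.1 : ℤ) - 1) p.2 ∧ Hn Z d p.1 (p.2.take h) ∧
    St (X / (3 * p.1 + 1)) p.2.length p.2.sum

open Classical in
/-- The pairs. -/
noncomputable def PPn (e : ℝ) (i0 h l K r Z : ℕ) (L d X : ℝ) : Finset (ℤ × List ℕ) :=
  (((range Z) ×ˢ ((range (r + 1)).biUnion (fun j => lw K (l + j)))).filter (Pn e i0 h Z L d X)).image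
    (fun p => (-(p.1 : ℤ) - 1, p.2))

open Classical in
theorem MassN_sum {e : ℝ} {i0 h l K r Z : ℕ} {L d X : ℝ}
    (hw : ∀ (x : ℕ) (v : List ℕ), (∀ k ∈ v, 1 ≤ k) → Pn e i0 h Z L d X (x, v) →
      ww v / (3 * x + 1) / (1 + d) ≤ 1 / (-(3 * (nd (-(x : ℤ) - 1) v : ℝ) + 2))) :
    (∑ x ∈ (range Z).filter (Rn Z L), 1 / (3 * x + 1 : ℝ) *
      ∑ j ∈ range (r + 1), ∑ v ∈ lw K (l + j),
        (if Gd e i0 v ∧ Ala (-(x : ℤ) - 1) v ∧ Hn Z d x (v.take h) ∧ St (X / (3 * x + 1)) (l + j) v.sum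
          then ww v else 0)) / (1 + d) ≤
    ∑ p ∈ PPn e i0 h l K r Z L d X, 1 / (-(3 * (nd p.1 p.2 : ℝ) + 2)) := by
  unfold PPn
  rw [Finset.sum_image (by
    rintro ⟨a, b⟩ _ ⟨a', b'⟩ _ hab
    simp only [Prod.mk.injEq] at hab
    have h1 : (a : ℤ) = a' := by linarith [hab.1]
    exact Prod.ext (by exact_mod_cast h1) hab.2)]
  rw [Finset.sum_filter, Finset.sum_filter, Finset.sum_product, Finset.sum_div]
  refine Finset.sum_le_sum fun x _ => ?_
  rw [Finset.sum_biUnion (Mass_disj K l r)]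
  by_cases hr : Rn Z L x
  · rw [if_pos hr, Finset.mul_sum, Finset.sum_div]
    refine Finset.sum_le_sum fun j _ => ?_
    rw [Finset.mul_sum, Finset.sum_div]
    refine Finset.sum_le_sum fun v hv => ?_
    obtain ⟨hlen, hlet⟩ := mem_lw.1 hv
    by_cases hc : Gd e i0 v ∧ Ala (-(x : ℤ) - 1) v ∧ Hn Z d x (v.take h) ∧ St (X / (3 * x + 1)) (l + j) v.sum
    · rw [if_pos hc]
      have hpc : Pn e i0 h Z L d X (x, v) := by
        refine ⟨hr, hc.1, hc.2.1, hc.2.2.1, ?_⟩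
        have := hc.2.2.2
        rw [← hlen] at this
        exact this
      rw [if_pos hpc]
      refine le_trans (le_of_eq ?_) (hw x v (fun k hk => (hlet k hk).1) hpc)
      ring
    · rw [if_neg hc, mul_zero, zero_div]
      have hpc : ¬ Pn e i0 h Z L d X (x, v) := by
        intro hpc
        apply hc
        refine ⟨hpc.2.1, hpc.2.2.1, hpc.2.2.2.1, ?_⟩
        have := hpc.2.2.2.2
        simp only [hlen] at this
        exact this
      rw [if_neg hpc]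
  · rw [if_neg hr, zero_div]
    refine Finset.sum_nonneg fun j _ => Finset.sum_nonneg fun v _ => ?_
    have hpc : ¬ Pn e i0 h Z L d X (x, v) := fun hpc => hr hpc.1
    rw [if_neg hpc]

open Classical in
theorem MassN_rts {Z : ℕ} (hZ : 0 < Z) (L : ℝ) :
    ∑ x ∈ (range Z).filter (Rn Z L), 1 / (3 * x + 1 : ℝ) ≤ Real.exp L := by
  have hZ' : (0 : ℝ) < Z := Nat.cast_pos.2 hZ
  have h1 : ∀ x ∈ (range Z).filter (Rn Z L), 1 / (3 * x + 1 : ℝ) ≤ Real.exp L / Z := by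
    intro x hx
    have h2 := (Finset.mem_filter.1 hx).2.2.1
    rw [Real.exp_neg] at h2
    have he := Real.exp_pos L
    rw [div_le_div_iff₀ (by positivity) hZ']
    have h3 : (Z : ℝ) * (Real.exp L)⁻¹ * Real.exp L = Z := by field_simp
    have h4 := mul_le_mul_of_nonneg_right h2 he.le
    rw [h3] at h4
    linarith
  refine (Finset.sum_le_card_nsmul _ _ _ h1).trans ?_
  have hc : (((range Z).filter (Rn Z L)).card : ℝ) ≤ Z := by
    have := Finset.card_filter_le (range Z) (Rn Z L)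
    rw [Finset.card_range] at this
    exact_mod_cast this
  rw [nsmul_eq_mul]
  have he := Real.exp_pos L
  calc (((range Z).filter (Rn Z L)).card : ℝ) * (Real.exp L / Z) ≤ Z * (Real.exp L / Z) :=
        mul_le_mul_of_nonneg_right hc (by positivity)
    _ = Real.exp L := by field_simp

theorem mass_ofN (hV : ∀ (e : ℝ) (i0 : ℕ), 0 < e → e ≤ 1 / 100 → VisH e i0) (hB : EvB)
    {e d : ℝ} (he : 0 < e) (he1 : e ≤ 1 / 100) (hd : 0 < d) (Z1 : ℤ) :
    ∃ (Z : ℤ) (X0 : ℕ), Z1 ≤ Z ∧ ∀ X : ℕ, X0 ≤ X → ∃ P : Finset (ℤ × List ℕ),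
      (∀ p ∈ P, FPn Z p.1 p.2 ∧ Typ e p.2 ∧ (X : ℝ) ≤ -(3 * (nd p.1 p.2 : ℝ) + 2) ∧
        -(3 * (nd p.1 p.2 : ℝ) + 2) < 2 * X * (1 + d)) ∧
      (Real.log 2 - d) / 4 ≤ ∑ p ∈ P, 1 / (-(3 * (nd p.1 p.2 : ℝ) + 2)) := by
  classical
  -- the small constant
  set q : ℝ := min d 1 / 100 with hq
  have hq0 : 0 < q := by positivity
  have hq1 : q ≤ 1 / 100 := by
    rw [hq]
    have := min_le_right d 1
    linarith
  have hqd : 18 * q ≤ d := by
    rw [hq]
    have := min_le_left d 1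
    have : 0 < min d 1 := by positivity
    linarith
  have hqd' : q ≤ d := by linarith
  obtain ⟨L, i0, hL, hi0, hdr⟩ := drift2 (e := e) he hq0
  obtain ⟨S, hS0, hS⟩ := off he he1 i0
  obtain ⟨h', hh'⟩ := pow_unbounded_of_one_lt (Real.exp L * (1 + q)) (by norm_num : (1 : ℝ) < 13 / 10)
  set h : ℕ := max h' i0 with hh
  have hh0 : i0 ≤ h := le_max_right _ _
  have hh1 : 1 ≤ h := hi0.trans hh0
  have hhe : Real.exp L * (1 + q) ≤ (13 / 10 : ℝ) ^ h :=
    hh'.le.trans (pow_le_pow_right₀ (by norm_num) (le_max_left _ _))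
  obtain ⟨n0, hn0⟩ := hV e i0 he he1 (q * Real.exp (-L)) (by positivity)
  set l : ℕ := max n0 (2 * h) with hl
  have hl0 : n0 ≤ l := le_max_left _ _
  have hl2 : 2 * h ≤ l := le_max_right _ _
  have hhl : h ≤ l := by omega
  have hVl := hn0 h l hl0 (by omega)
  obtain ⟨Z0, hZ0⟩ := progN l hL hq0
  obtain ⟨Z2, hZ2⟩ := exists_nat_ge (S * (1 + 1 / q) * Real.exp L)
  set Z : ℕ := max (max Z0 Z2) (max Z1.toNat 1) with hZ
  have hZpos : 0 < Z := lt_of_lt_of_le one_pos ((le_max_right _ _).trans (le_max_right _ _))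
  have hZa : Z0 ≤ Z := (le_max_left _ _).trans (le_max_left _ _)
  have hZb : Z2 ≤ Z := (le_max_right _ _).trans (le_max_left _ _)
  have hZc : Z1.toNat ≤ Z := (le_max_left _ _).trans (le_max_right _ _)
  have hZS : S * (1 + 1 / q) * Real.exp L ≤ (Z : ℝ) := hZ2.trans (Nat.cast_le.2 hZb)
  obtain ⟨X0, hX0⟩ := rootN (B := (Z : ℝ)) he1 hq0 (hh0.trans hhl) hVl hB
  obtain ⟨X1, hX1⟩ := exists_nat_ge X0
  refine ⟨(Z : ℤ), max X1 1, ?_, ?_⟩
  · have := Int.self_le_toNat Z1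
    have : (Z1.toNat : ℤ) ≤ (Z : ℤ) := by exact_mod_cast hZc
    linarith
  intro X hX
  have hXpos : 0 < X := lt_of_lt_of_le one_pos ((le_max_right _ _).trans hX)
  have hXr : (0 : ℝ) < X := Nat.cast_pos.2 hXpos
  have hXX : X0 ≤ (X : ℝ) := hX1.trans (Nat.cast_le.2 ((le_max_left _ _).trans hX))
  obtain ⟨K0, hK0⟩ := hdr h l hh1 hhl
  obtain ⟨K, r, hK, hroot⟩ := hX0 X hXX K0
  have hZi : (0 : ℤ) < (Z : ℤ) := by exact_mod_cast hZpos
  have hZSi : S * (1 + 1 / q) * Real.exp L ≤ ((Z : ℤ) : ℝ) := by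
    rw [Int.cast_natCast]; exact hZS
  -- the window
  have hbx : ∀ x : ℕ, (3 * (x : ℝ) + 1) = -(3 * (((-(x : ℤ) - 1 : ℤ)) : ℝ) + 2) := by
    intro x
    push_cast
    ring
  have hwin : ∀ (x : ℕ) (v : List ℕ), (∀ k ∈ v, 1 ≤ k) → Pn e i0 h Z L q X (x, v) →
      (X : ℝ) ≤ -(3 * (nd (-(x : ℤ) - 1) v : ℝ) + 2) ∧ -(3 * (nd (-(x : ℤ) - 1) v : ℝ) + 2) < 2 * X * (1 + q) ∧
        ww v / (3 * x + 1) / (1 + q) ≤ 1 / (-(3 * (nd (-(x : ℤ) - 1) v : ℝ) + 2)) := by
    intro x v hv hp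
    obtain ⟨⟨_, p2, _⟩, p4, p5, _, p7⟩ := hp
    exact windowN (x := (-(x : ℤ) - 1)) (Z := (Z : ℤ)) (X := X) (d := q) (L := L) (b := 3 * (x : ℝ) + 1) hS0 hS hq0 hZi hZSi
      (hbx x) (by rw [Int.cast_natCast]; exact p2) hXr hv p5 p4 p7
  refine ⟨PPn e i0 h l K r Z L q X, ?_, ?_⟩
  · intro p hp
    unfold PPn at hp
    rw [Finset.mem_image] at hp
    obtain ⟨⟨x, v⟩, hxv, rfl⟩ := hp
    rw [Finset.mem_filter, Finset.mem_product, Finset.mem_biUnion] at hxv
    obtain ⟨⟨_, j, _, hj⟩, hpc⟩ := hxv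
    obtain ⟨hlen, hlet⟩ := mem_lw.1 hj
    simp only at hlen hlet hpc ⊢
    have hv : ∀ k ∈ v, 1 ≤ k := fun k hk => (hlet k hk).1
    have hw := hwin x v hv hpc
    obtain ⟨⟨p1, p2, p3⟩, p4, p5, p6, p7⟩ := hpc
    simp only at p1 p2 p3 p4 p5 p6 p7
    have hlv : l ≤ v.length := by omega
    refine ⟨⟨?_, ?_, ?_, ?_, hv, p5, ?_⟩, ?_, hw.1, ?_⟩
    · have := Int.natCast_nonneg x
      omega
    · intro h4
      apply p1
      have h5 : (4 : ℤ) ∣ -(3 * (-(x : ℤ) - 1) + 2) := (dvd_neg (a := (4 : ℤ))).2 h4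
      have h6 : -(3 * (-(x : ℤ) - 1) + 2) = 3 * (x : ℤ) + 1 := by ring
      rwa [h6] at h5
    · have h5 : (3 * x + 1 : ℕ) < Z := by exact_mod_cast p3
      have h6 : (3 * (x : ℤ) + 1) < (Z : ℤ) := by exact_mod_cast h5
      linarith
    · intro hv0
      rw [hv0] at hlv
      simp at hlv
      omega
    · exact fp_nodesN (x := (-(x : ℤ) - 1)) (Z := (Z : ℤ)) (L := L) (b := 3 * (x : ℝ) + 1) he he1 hS hq0 hh0 hhe hZi
        (hbx x) (by rw [Int.cast_natCast]; exact p2) hv p5 p4 (hhl.trans hlv) (by rw [Int.cast_natCast]; exact p6)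
    · have := p4 v.length (hh0.trans (hhl.trans hlv)) le_rfl
      rwa [List.take_length] at this
    · refine lt_of_lt_of_le hw.2.1 ?_
      have : (0 : ℝ) ≤ 2 * X := by positivity
      exact mul_le_mul_of_nonneg_left (by linarith) this
  · refine le_trans ?_ (MassN_sum (fun x v hv hp => (hwin x v hv hp).2.2))
    have hW := MassN_words (e := e) (i0 := i0) (K := K) (h := h) hL hq0 (hZ0 Z hZa) (hK0 K hK)
    set c : ℝ := (1 - q) * (Real.log 2 / Real.log (4 / 3)) with hc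
    have h43 := Mass_log43
    have h43' : 0 < Real.log (4 / 3) := by linarith
    have hl2' : 0 < Real.log 2 := Real.log_pos (by norm_num)
    have hl21 : Real.log 2 ≤ 1 := by
      have := Real.log_le_sub_one_of_pos (by norm_num : (0 : ℝ) < 2)
      linarith
    have hc0 : 0 ≤ c := by
      rw [hc]
      exact mul_nonneg (by linarith) (by positivity)
    have hterm : ∀ x ∈ (range Z).filter (Rn Z L),
        c * (1 / (3 * x + 1 : ℝ) * ∑ u ∈ lw K l, (if Gd e i0 u ∧ Ala (-(x : ℤ) - 1) u ∧ Hn Z q x (u.take h) then ww u else 0)) -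
          q * Real.exp (-L) * (1 / (3 * x + 1 : ℝ)) ≤
        1 / (3 * x + 1 : ℝ) * ∑ j ∈ range (r + 1), ∑ v ∈ lw K (l + j),
          (if Gd e i0 v ∧ Ala (-(x : ℤ) - 1) v ∧ Hn Z q x (v.take h) ∧ St (X / (3 * x + 1)) (l + j) v.sum
            then ww v else 0) := by
      intro x hx
      have hrt := (Finset.mem_filter.1 hx).2
      have h1 := hroot (-(x : ℤ) - 1) (3 * (x : ℝ) + 1) (Hn Z q x)
        (by have : (0 : ℝ) ≤ x := Nat.cast_nonneg x
            linarith) hrt.2.2.le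
      have hx0 : (0 : ℝ) < 1 / (3 * x + 1 : ℝ) := by positivity
      have h2 := mul_le_mul_of_nonneg_left h1 hx0.le
      refine le_trans (le_of_eq ?_) h2
      rw [hc]
      ring
    have hq1' : 0 < 1 + q := by linarith
    rw [le_div_iff₀ hq1']
    refine le_trans ?_ (Finset.sum_le_sum hterm)
    rw [Finset.sum_sub_distrib, ← Finset.mul_sum, ← Finset.mul_sum]
    have h5 := mul_le_mul_of_nonneg_left hW hc0
    have h6 : q * Real.exp (-L) * ∑ x ∈ (range Z).filter (Rn Z L), 1 / (3 * x + 1 : ℝ) ≤ q := by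
      have h7 := mul_le_mul_of_nonneg_left (MassN_rts hZpos L) (by positivity : 0 ≤ q * Real.exp (-L))
      have h8 : q * Real.exp (-L) * Real.exp L = q := by
        rw [mul_assoc, ← Real.exp_add]
        simp
      linarith
    have h9 : (Real.log 2 - 17 * q) / 4 ≤ c * ((Real.log (4 / 3) - 3 * q) / 4) - q := by
      have h10 : c * ((Real.log (4 / 3) - 3 * q) / 4) =
          (1 - q) * (Real.log 2 - 3 * q * (Real.log 2 / Real.log (4 / 3))) / 4 := by
        rw [hc]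
        field_simp
      have h11 : Real.log 2 / Real.log (4 / 3) ≤ 4 := by
        rw [div_le_iff₀ h43']
        linarith
      have h12 : 0 ≤ Real.log 2 / Real.log (4 / 3) := by positivity
      rw [h10]
      set t := Real.log 2 / Real.log (4 / 3) with ht
      have h13 : (1 - q) * (Real.log 2 - 3 * q * t) = Real.log 2 - q * Real.log 2 - 3 * q * t + 3 * (q * q) * t := by ring
      have h14 : q * Real.log 2 ≤ q * 1 := mul_le_mul_of_nonneg_left hl21 hq0.le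
      have h15 : q * t ≤ q * 4 := mul_le_mul_of_nonneg_left h11 hq0.le
      have h16 : 0 ≤ 3 * (q * q) * t := by positivity
      rw [h13]
      linarith
    have h17 : (Real.log 2 - d) / 4 * (1 + q) ≤ (Real.log 2 - 17 * q) / 4 := by
      have h18 : (Real.log 2 - d) * (1 + q) ≤ (Real.log 2 - 18 * q) * (1 + q) :=
        mul_le_mul_of_nonneg_right (by linarith) hq1'.le
      have h19 : q * Real.log 2 ≤ q * 1 := mul_le_mul_of_nonneg_left hl21 hq0.le
      have h20 : 0 ≤ q * q := by positivity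
      nlinarith
    linarith

end Pool.Agent.helper24.T2
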