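import Pool.Agent.helper24.T2.Mass
import Pool.Agent.helper62.T2.VisH
import Pool.Agent.helper62.T2.Black

/-!
# T2b-MassT2: the mass of the first passage words
-/

namespace Pool.Agent.helper24.T2

open Finset Pool.Agent.helper14.EX1 Pool.Agent.helper82.PD

theorem MassT2_vis (e : ℝ) (i0 : ℕ) (he : 0 < e) (he1 : e ≤ 1 / 100) : VisH e i0 := by
  intro d hd
  obtain ⟨n0, hn0⟩ := Pool.Agent.helper62.T2.visitsH he he1 i0 hd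
  refine ⟨n0, fun h l hl hh => ?_⟩
  intro K r X x H hX
  exact hn0 h l hl hh K r X x H hX

theorem MassT2_evb : EvB := by
  intro d hd
  exact Pool.Agent.helper62.T2.ev_black hd

theorem massT2 {e d : ℝ} (he : 0 < e) (he1 : e ≤ 1 / 100) (hd : 0 < d) (Z1 : ℤ) :
    ∃ (Z : ℤ) (X0 : ℕ), Z1 ≤ Z ∧ ∀ X : ℕ, X0 ≤ X → ∃ P : Finset (ℤ × List ℕ),
      (∀ p ∈ P, Pool.Agent.helper62.T2.FP Z p.1 p.2 ∧ Typ e p.2 ∧ (X : ℝ) ≤ 3 * (nd p.1 p.2 : ℝ) + 2 ∧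
        3 * (nd p.1 p.2 : ℝ) + 2 < 2 * X * (1 + d)) ∧
      (Real.log 2 - d) / 4 ≤ ∑ p ∈ P, 1 / (3 * (nd p.1 p.2 : ℝ) + 2) :=
  mass_of MassT2_vis MassT2_evb he he1 hd Z1

end Pool.Agent.helper24.T2
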