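import Pool.Agent.helper24.T2.MassN
import Pool.Agent.helper24.T2.MassT2

/-!
# T2b-MassT2n: the mass of the first passage words, negative roots
-/

namespace Pool.Agent.helper24.T2

open Finset Pool.Agent.helper14.EX1 Pool.Agent.helper82.PD

theorem massT2n {e d : ℝ} (he : 0 < e) (he1 : e ≤ 1 / 100) (hd : 0 < d) (Z1 : ℤ) :
    ∃ (Z : ℤ) (X0 : ℕ), Z1 ≤ Z ∧ ∀ X : ℕ, X0 ≤ X → ∃ P : Finset (ℤ × List ℕ),
      (∀ p ∈ P, FPn Z p.1 p.2 ∧ Typ e p.2 ∧ (X : ℝ) ≤ -(3 * (nd p.1 p.2 : ℝ) + 2) ∧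
        -(3 * (nd p.1 p.2 : ℝ) + 2) < 2 * X * (1 + d)) ∧
      (Real.log 2 - d) / 4 ≤ ∑ p ∈ P, 1 / (-(3 * (nd p.1 p.2 : ℝ) + 2)) :=
  mass_ofN MassT2_vis MassT2_evb he he1 hd Z1

end Pool.Agent.helper24.T2
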